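import Pool.Agent.H985R5.FE.Defs

set_option autoImplicit false

open Finset

namespace H985FE

namespace AUTx

variable {d : ℕ}

/-- unit vectors -/
def Un (u : V d) : Prop := ∑ i, u i ^ 2 = 1

theorem adj_iff (x y : V d) : (zd d).Adj x y ↔ Un (y - x) := by
  show ∑ i, (x i - y i) ^ 2 = 1 ↔ ∑ i, ((y - x) i) ^ 2 = 1
  have : ∑ i, (x i - y i) ^ 2 = ∑ i, ((y - x) i) ^ 2 := by
    refine Finset.sum_congr rfl fun i _ => ?_
    simp only [Pi.sub_apply]
    ring
  rw [this]

theorem un_neg {u : V d} (hu : Un u) : Un (-u) := by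
  unfold Un at *
  rw [← hu]
  exact Finset.sum_congr rfl fun i _ => by simp

theorem un_ne_zero {u : V d} (hu : Un u) : u ≠ 0 := by
  rintro rfl
  simp [Un] at hu

theorem un_ne_neg {u : V d} (hu : Un u) : u ≠ -u := by
  intro h
  apply un_ne_zero hu
  funext i
  have := congrFun h i
  simp only [Pi.neg_apply, Pi.zero_apply] at this ⊢
  omega

theorem sq_sum_zero {a : V d} (h : ∑ i, a i ^ 2 ≤ 0) : a = 0 := by
  have h0 : ∑ i, a i ^ 2 = 0 := le_antisymm h (Finset.sum_nonneg fun i _ => sq_nonneg _)
  rw [Finset.sum_eq_zero_iff_of_nonneg fun i _ => sq_nonneg _] at h0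
  funext i
  have := h0 i (Finset.mem_univ i)
  simpa using this

theorem ip_le {a c : V d} (ha : Un a) (hc : Un c) :
    ∑ i, a i * c i ≤ 1 ∧ (1 ≤ ∑ i, a i * c i → a = c) := by
  have e : ∑ i, (a - c) i ^ 2 = ∑ i, a i ^ 2 + ∑ i, c i ^ 2 - 2 * ∑ i, a i * c i := by
    rw [Finset.mul_sum, ← Finset.sum_add_distrib, ← Finset.sum_sub_distrib]
    refine Finset.sum_congr rfl fun i _ => ?_
    simp only [Pi.sub_apply]
    ring
  unfold Un at ha hc
  rw [ha, hc] at e
  have h0 : 0 ≤ ∑ i, (a - c) i ^ 2 := Finset.sum_nonneg fun i _ => sq_nonneg _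
  refine ⟨by omega, fun h => ?_⟩
  have : a - c = 0 := sq_sum_zero (by omega)
  exact sub_eq_zero.1 this

theorem keyB {a b w : V d} (ha : Un a) (hb : Un b) (hab : a ≠ b) (h1 : Un (w - a))
    (h2 : Un (w - b)) (hw : w ≠ 0) : a ≠ -b ∧ w = a + b := by
  have e : ∑ i, (w - b) i ^ 2 = ∑ i, (w - a) i ^ 2 + ∑ i, a i ^ 2 + ∑ i, b i ^ 2 +
      2 * ∑ i, (w - a) i * a i - 2 * ∑ i, (w - a) i * b i - 2 * ∑ i, a i * b i := by
    rw [Finset.mul_sum, Finset.mul_sum, Finset.mul_sum, ← Finset.sum_add_distrib,
      ← Finset.sum_add_distrib, ← Finset.sum_add_distrib, ← Finset.sum_sub_distrib,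
      ← Finset.sum_sub_distrib]
    refine Finset.sum_congr rfl fun i _ => ?_
    simp only [Pi.sub_apply]
    ring
  have e1 : ∑ i, (w - a) i ^ 2 = 1 := h1
  have e2 : ∑ i, (w - b) i ^ 2 = 1 := h2
  have e3 : ∑ i, a i ^ 2 = 1 := ha
  have e4 : ∑ i, b i ^ 2 = 1 := hb
  rw [e1, e2, e3, e4] at e
  have hca : w - a ≠ -a := by
    intro h
    apply hw
    have : w = -a + a := by rw [← h]; abel
    rw [this]; abel
  have i1 : 0 ≤ ∑ i, (w - a) i * a i := by
    by_contra hneg
    push Not at hneg
    apply hca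
    refine (ip_le h1 (un_neg ha)).2 ?_
    have : ∑ i, (w - a) i * (-a) i = -∑ i, (w - a) i * a i := by
      rw [← Finset.sum_neg_distrib]
      exact Finset.sum_congr rfl fun i _ => by simp
    rw [this]; omega
  have i2 : ∑ i, a i * b i ≤ 0 := by
    by_contra hpos
    push Not at hpos
    exact hab ((ip_le ha hb).2 (by omega))
  have h3 : w - a = b := (ip_le h1 hb).2 (by omega)
  refine ⟨fun h => hca ?_, ?_⟩
  · rw [h3, h]; abel
  · rw [← h3]; abel

section
variable (φ : zd d ≃g zd d)

theorem un_D {x u : V d} (hu : Un u) : Un (φ (x + u) - φ x) := by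
  rw [← adj_iff, φ.map_adj_iff, adj_iff]
  simpa using hu

theorem D_neg {x u : V d} (hu : Un u) : φ (x + -u) - φ x = -(φ (x + u) - φ x) := by
  by_contra hne
  set a := φ (x + u) - φ x with ha
  set b := φ (x + -u) - φ x with hb
  have hua : Un a := un_D φ hu
  have hub : Un b := un_D φ (un_neg hu)
  have hab : a ≠ b := by
    intro h
    have h2 : φ (x + u) = φ (x + -u) := by
      have := congrArg (fun z => z + φ x) h
      simpa [ha, hb] using this
    have h3 := φ.injective h2
    exact un_ne_neg hu (add_left_cancel h3)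
  -- the second common neighbour
  obtain ⟨z, hz⟩ := φ.surjective (φ x + a + b)
  have hz1 : (zd d).Adj (x + u) z := by
    rw [← φ.map_adj_iff, hz, adj_iff]
    have : φ x + a + b - φ (x + u) = b := by rw [ha]; abel
    rw [this]; exact hub
  have hz2 : (zd d).Adj (x + -u) z := by
    rw [← φ.map_adj_iff, hz, adj_iff]
    have : φ x + a + b - φ (x + -u) = a := by rw [hb]; abel
    rw [this]; exact hua
  have hzx : z - x ≠ 0 := by
    intro h
    have h2 : z = x := sub_eq_zero.1 h
    rw [h2] at hz
    apply hne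
    have h3 : a + b = 0 := by
      have h4 : φ x + (a + b) = φ x + 0 := by rw [add_zero, ← add_assoc]; exact hz.symm
      exact add_left_cancel h4
    exact (neg_eq_of_add_eq_zero_right h3).symm
  rw [adj_iff] at hz1 hz2
  have h5 := keyB (a := u) (b := -u) (w := z - x) hu (un_neg hu) (un_ne_neg hu)
    (by convert hz1 using 1; abel) (by convert hz2 using 1; abel) hzx
  exact h5.1 (neg_neg u).symm

theorem D_add {x u v : V d} (hu : Un u) (hv : Un v) :
    φ (x + u + v) - φ (x + u) = φ (x + v) - φ x := by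
  by_cases h1 : v = -u
  · subst h1
    have e : x + u + -u = x := by abel
    rw [e, D_neg φ hu]
    abel
  by_cases h2 : v = u
  · subst h2
    have h3 := D_neg φ (x := x + v) hv
    have e : x + v + -v = x := by abel
    rw [e] at h3
    have h4 : φ (x + v + v) - φ (x + v) = -(φ x - φ (x + v)) := by rw [h3]; abel
    rw [h4]; abel
  · have hab : φ (x + u) - φ x ≠ φ (x + v) - φ x := by
      intro h
      have h3 : φ (x + u) = φ (x + v) := by
        have := congrArg (fun z => z + φ x) h
        simpa using this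
      exact h2 (add_left_cancel (φ.injective h3)).symm
    have hw : φ (x + u + v) - φ x ≠ 0 := by
      intro h
      have h3 := φ.injective (sub_eq_zero.1 h)
      apply h1
      have h4 : x + (u + v) = x + 0 := by rw [← add_assoc, h3, add_zero]
      have h5 := add_left_cancel h4
      exact (neg_eq_of_add_eq_zero_right h5).symm
    have k1 : Un (φ (x + u + v) - φ x - (φ (x + u) - φ x)) := by
      have : φ (x + u + v) - φ x - (φ (x + u) - φ x) = φ (x + u + v) - φ (x + u) := by abel
      rw [this]; exact un_D φ hv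
    have k2 : Un (φ (x + u + v) - φ x - (φ (x + v) - φ x)) := by
      have : φ (x + u + v) - φ x - (φ (x + v) - φ x) = φ (x + v + u) - φ (x + v) := by
        rw [add_right_comm x u v]; abel
      rw [this]; exact un_D φ hu
    have h3 := (keyB (un_D φ hu) (un_D φ hv) hab k1 k2 hw).2
    have h4 : φ (x + u + v) = φ (x + u) - φ x + (φ (x + v) - φ x) + φ x := by
      rw [← h3]; abel
    rw [h4]; abel

end

theorem sqOne {z : ℤ} (h : z ^ 2 = 1) : z = 1 ∨ z = -1 := by
  have : (z - 1) * (z + 1) = 0 := by linarith [h, sq z]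
  rcases mul_eq_zero.1 this with h | h <;> omega

theorem un_single (i : Fin d) (s : ℤ) (hs : s = 1 ∨ s = -1) : Un (Pi.single i s : V d) := by
  unfold Un
  rw [Finset.sum_eq_single i]
  · rw [Pi.single_eq_same]; rcases hs with h | h <;> subst h <;> norm_num
  · intro j _ hj
    rw [Pi.single_eq_of_ne hj]; norm_num
  · intro h; exact absurd (Finset.mem_univ i) h

theorem un_form {u : V d} (hu : Un u) : ∃ (i : Fin d) (s : ℤ), (s = 1 ∨ s = -1) ∧ u = Pi.single i s := by
  have h1 : ∃ i, u i ≠ 0 := by
    by_contra h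
    push Not at h
    exact un_ne_zero hu (funext h)
  obtain ⟨i, hi⟩ := h1
  have h2 : ∑ j, u j ^ 2 = 1 := hu
  rw [← Finset.add_sum_erase _ _ (Finset.mem_univ i)] at h2
  have h3 : 0 ≤ ∑ j ∈ univ.erase i, u j ^ 2 := Finset.sum_nonneg fun j _ => sq_nonneg _
  have h4 : 1 ≤ u i ^ 2 := by
    have := pow_pos (abs_pos.2 hi) 2
    rw [sq_abs] at this
    omega
  have h5 : ∑ j ∈ univ.erase i, u j ^ 2 = 0 := by omega
  have h6 : u i ^ 2 = 1 := by omega
  refine ⟨i, u i, sqOne h6, ?_⟩
  funext j
  by_cases hj : j = i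
  · subst hj; rw [Pi.single_eq_same]
  · rw [Pi.single_eq_of_ne hj]
    rw [Finset.sum_eq_zero_iff_of_nonneg fun i _ => sq_nonneg _] at h5
    have := h5 j (Finset.mem_erase.2 ⟨hj, Finset.mem_univ j⟩)
    simpa using this

/-- the increments do not depend on the point -/
def PP (φ : zd d ≃g zd d) (x : V d) : Prop := ∀ v : V d, Un v → φ (x + v) - φ x = φ (0 + v) - φ 0

theorem PP_add (φ : zd d ≃g zd d) {x u : V d} (h : PP φ x) (hu : Un u) : PP φ (x + u) := by
  intro v hv
  rw [D_add φ hu hv]
  exact h v hv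

theorem PP_single (φ : zd d ≃g zd d) {x : V d} (h : PP φ x) (i : Fin d) (n : ℤ) :
    PP φ (x + Pi.single i n) := by
  induction n using Int.induction_on with
  | zero => rw [Pi.single_zero, add_zero]; exact h
  | succ n ih =>
    rw [Pi.single_add, ← add_assoc]
    exact PP_add φ ih (un_single i 1 (Or.inl rfl))
  | pred n ih =>
    rw [sub_eq_add_neg, Pi.single_add, ← add_assoc]
    exact PP_add φ ih (un_single i (-1) (Or.inr rfl))

theorem PP_all (φ : zd d ≃g zd d) (x : V d) : PP φ x := by
  rw [← Finset.univ_sum_single x]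
  generalize (univ : Finset (Fin d)) = s
  induction s using Finset.induction_on with
  | empty => intro v _; rw [Finset.sum_empty]
  | insert i s hi ih =>
    rw [Finset.sum_insert hi, add_comm]
    exact PP_single φ ih i _

theorem step_single (φ : zd d ≃g zd d) (x : V d) (i : Fin d) (n : ℤ) :
    φ (x + Pi.single i n) = φ x + n • (φ (0 + Pi.single i 1) - φ 0) := by
  have hs : ∀ y : V d, φ (y + Pi.single i 1) = φ y + (φ (0 + Pi.single i 1) - φ 0) := fun y => by
    rw [← PP_all φ y _ (un_single i 1 (Or.inl rfl))]; abel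
  have hs' : ∀ y : V d, φ (y + Pi.single i (-1)) = φ y - (φ (0 + Pi.single i 1) - φ 0) := fun y => by
    have h1 := D_neg φ (x := y) (un_single i 1 (Or.inl rfl))
    rw [← PP_all φ y _ (un_single i 1 (Or.inl rfl))]
    rw [Pi.single_neg]
    have h2 : φ (y + -Pi.single i 1) = φ y + (φ (y + -Pi.single i 1) - φ y) := by abel
    rw [h2, h1]; abel
  induction n using Int.induction_on with
  | zero => rw [Pi.single_zero, add_zero, zero_smul, add_zero]
  | succ n ih =>
    rw [Pi.single_add, ← add_assoc, hs, ih, add_smul, one_smul, add_assoc]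
  | pred n ih =>
    rw [sub_eq_add_neg, Pi.single_add, ← add_assoc, hs', ih, add_smul, neg_one_smul]
    abel

theorem formula (φ : zd d ≃g zd d) (x : V d) :
    φ x = φ 0 + ∑ i, x i • (φ (0 + Pi.single i 1) - φ 0) := by
  have h : ∀ s : Finset (Fin d), φ (∑ i ∈ s, Pi.single i (x i)) =
      φ 0 + ∑ i ∈ s, x i • (φ (0 + Pi.single i 1) - φ 0) := by
    intro s
    induction s using Finset.induction_on with
    | empty => rw [Finset.sum_empty, Finset.sum_empty, add_zero]
    | insert i s hi ih =>
      rw [Finset.sum_insert hi, Finset.sum_insert hi, add_comm, step_single, ih]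
      abel
  have h2 := h univ
  rw [Finset.univ_sum_single] at h2
  exact h2

end AUTx

theorem t_aut : S_AUT := by
  intro d φ
  have hA : ∀ i : Fin d, AUTx.Un (φ (0 + Pi.single i 1) - φ 0) := fun i =>
    AUTx.un_D φ (AUTx.un_single i 1 (Or.inl rfl))
  choose π s hs hAe using fun i => AUTx.un_form (hA i)
  have hinj : Function.Injective π := by
    intro i j hij
    by_contra hne
    have hcase : s i = s j ∨ s i = -s j := by
      rcases hs i with h | h <;> rcases hs j with h' | h' <;> rw [h, h'] <;> simp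
    rcases hcase with h | h
    · have e : φ (0 + Pi.single i 1) - φ 0 = φ (0 + Pi.single j 1) - φ 0 := by
        rw [hAe i, hAe j, hij, h]
      have e2 := φ.injective (sub_left_injective e)
      have e3 := congrFun (add_left_cancel e2) i
      rw [Pi.single_eq_same, Pi.single_eq_of_ne hne] at e3
      exact one_ne_zero e3
    · have e : φ (0 + Pi.single i 1) - φ 0 = φ (0 + -Pi.single j 1) - φ 0 := by
        rw [AUTx.D_neg φ (AUTx.un_single j 1 (Or.inl rfl)), hAe i, hAe j, hij, h, Pi.single_neg]
      have e2 := φ.injective (sub_left_injective e)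
      have e3 := congrFun (add_left_cancel e2) i
      rw [Pi.single_eq_same, Pi.neg_apply, Pi.single_eq_of_ne hne, neg_zero] at e3
      exact one_ne_zero e3
  have hbij : Function.Bijective π := Finite.injective_iff_bijective.1 hinj
  refine ⟨(Equiv.ofBijective π hbij).symm, fun k => s ((Equiv.ofBijective π hbij).symm k), φ 0,
    fun i => hs _, fun x k => ?_⟩
  rw [AUTx.formula φ x, Pi.add_apply, Finset.sum_apply]
  set j := (Equiv.ofBijective π hbij).symm k with hj
  have hπ : π j = k := (Equiv.ofBijective π hbij).apply_symm_apply k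
  rw [Finset.sum_eq_single j]
  · rw [Pi.smul_apply, hAe j, hπ, Pi.single_eq_same, smul_eq_mul]
    ring
  · intro i _ hi
    rw [Pi.smul_apply, hAe i, Pi.single_eq_of_ne, smul_zero]
    intro h
    exact hi (hinj (by rw [hπ, h]))
  · intro h; exact absurd (Finset.mem_univ j) h

end H985FE
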