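import Mathlib

/-!
Finite energy invariant percolation on `Z^d` with critical value one: definitions and statements of
the tasks.
-/

set_option autoImplicit false

namespace H985FE

open MeasureTheory Finset

/-- Vertices of `Z^d`. -/
abbrev V (d : ℕ) := Fin d → ℤ

/-- The lattice `Z^d`: two vertices are adjacent when their Euclidean distance is one. -/
def zd (d : ℕ) : SimpleGraph (V d) where
  Adj x y := ∑ i, (x i - y i) ^ 2 = 1
  symm := by
    constructor
    intro x y h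
    rw [← h]
    exact Finset.sum_congr rfl (fun i _ => by ring)
  loopless := ⟨by
    intro x h
    simp at h⟩

/-- The edges of `Z^d`. -/
abbrev E (d : ℕ) := ((zd d).edgeSet : Set (Sym2 (V d)))

/-- Configurations: `true` means open. -/
abbrev Conf (d : ℕ) := E d → Bool

/-- The subgraph of the open edges. -/
def opn {d : ℕ} (ω : Conf d) : SimpleGraph (V d) where
  Adj x y := ∃ h : (zd d).Adj x y, ω ⟨s(x, y), h⟩ = true
  symm := by
    constructor
    rintro x y ⟨h, h2⟩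
    refine ⟨h.symm, ?_⟩
    have e : (⟨s(y, x), h.symm⟩ : E d) = ⟨s(x, y), h⟩ := Subtype.ext Sym2.eq_swap
    rw [e]
    exact h2
  loopless := ⟨fun x ⟨h, _⟩ => (zd d).loopless.irrefl x h⟩

/-- There is an infinite cluster. -/
def Perc {d : ℕ} (ω : Conf d) : Prop := ∃ x : V d, {y | (opn ω).Reachable x y}.Infinite

/-- The law is invariant under all automorphisms of the lattice. -/
def Invar {d : ℕ} (μ : Measure (Conf d)) : Prop :=
  ∀ φ : zd d ≃g zd d, μ.map (fun ω e => ω (φ.mapEdgeSet e)) = μ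

/-- The sigma-algebra of the states of all edges other than `e`. -/
def others {d : ℕ} (e : E d) : MeasurableSpace (Conf d) :=
  MeasurableSpace.comap (fun (ω : Conf d) (f : {f : E d // f ≠ e}) => ω f) inferInstance

/-- Finite energy. -/
def FinEn {d : ℕ} (μ : Measure (Conf d)) : Prop :=
  ∀ e : E d, ∀ᵐ ω ∂μ, 0 < (μ[Set.indicator {ω | ω e = true} (fun _ => (1 : ℝ)) | others e]) ω ∧
    (μ[Set.indicator {ω | ω e = true} (fun _ => (1 : ℝ)) | others e]) ω < 1

/-- The Bernoulli measure on `Bool`. -/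
noncomputable def bern (p : unitInterval) : Measure Bool :=
  ENNReal.ofReal p • Measure.dirac true + ENNReal.ofReal (1 - p) • Measure.dirac false

instance (p : unitInterval) : IsProbabilityMeasure (bern p) := ⟨by
  unfold bern
  simp only [Measure.coe_add, Measure.coe_smul, Pi.add_apply, Pi.smul_apply, measure_univ,
    smul_eq_mul, mul_one]
  rw [← ENNReal.ofReal_add p.2.1 (by linarith [p.2.2])]
  simp⟩

/-- The law of the `p`-thinning. -/
noncomputable def thin {d : ℕ} (p : unitInterval) (μ : Measure (Conf d)) : Measure (Conf d) :=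
  (μ.prod (Measure.infinitePi (fun _ : E d => bern p))).map (fun x e => x.1 e && x.2 e)

/-! ### The environment: 2-adic shifts -/

noncomputable instance : MeasurableSpace ℤ_[2] := borel _
instance : BorelSpace ℤ_[2] := ⟨rfl⟩

/-- Shifts. -/
abbrev T (d : ℕ) := Fin d → ℤ_[2]

noncomputable def nu1 : Measure ℤ_[2] := Measure.addHaarMeasure ⊤
noncomputable def nu (d : ℕ) : Measure (T d) := Measure.pi (fun _ => nu1)

/-- The residue of the shifted coordinate at level `k`. -/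
noncomputable def res {d : ℕ} (τ : T d) (k : ℕ) (x : V d) (i : Fin d) : ZMod (2 ^ (k ^ 2)) :=
  ((x i : ℤ) : ZMod (2 ^ (k ^ 2))) - PadicInt.toZModPow (k ^ 2) (τ i)

/-- The distance of `x i` to the nearest integer congruent to `τ i` modulo `2^(k^2)`. -/
noncomputable def off {d : ℕ} (τ : T d) (k : ℕ) (x : V d) (i : Fin d) : ℕ :=
  (res τ k x i).valMinAbs.natAbs

/-- The slab of level `k` in direction `i`. -/
def slab {d : ℕ} (τ : T d) (k : ℕ) (i : Fin d) (x : V d) : Prop :=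
  2 ^ (k ^ 2) ≤ 2 * off τ k x i + 2 * k

def wall {d : ℕ} (τ : T d) (k : ℕ) (e : Sym2 (V d)) : Prop := ∃ i, ∀ x ∈ e, slab τ k i x

def road {d : ℕ} (τ : T d) (k : ℕ) (e : Sym2 (V d)) : Prop :=
  ∀ i, (∀ x ∈ e, ∀ y ∈ e, x i = y i) → ∀ x ∈ e, res τ k x i = 0

/-- The skeleton: an edge is open unless it is a wall edge and not a road edge at some level. -/
def base {d : ℕ} (τ : T d) (e : Sym2 (V d)) : Prop := ∀ k, wall τ k e → road τ k e

/-- The noise of level `k`. -/
noncomputable def dk (d k : ℕ) : ℝ := 1 / (2 ^ k * ((d + 1) * (3 * 2 ^ ((k + 1) ^ 2)) ^ d))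

open Classical in
/-- The noise of an edge. -/
noncomputable def noise {d : ℕ} (τ : T d) (e : Sym2 (V d)) : ℝ :=
  ⨅ k : ℕ, if wall τ k e ∨ road τ k e then dk d k else 1 / 2

open Classical in
/-- The configuration. -/
noncomputable def cfg {d : ℕ} (x : T d × (E d → unitInterval)) : Conf d := fun e =>
  if ((x.2 e : ℝ) < noise x.1 e.1) then !(decide (base x.1 e.1)) else decide (base x.1 e.1)

/-- The sample space. -/
noncomputable def P (d : ℕ) : Measure (T d × (E d → unitInterval)) :=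
  (nu d).prod (Measure.infinitePi (fun _ : E d => (volume : Measure unitInterval)))

noncomputable def mu (d : ℕ) : Measure (Conf d) := (P d).map cfg

/-- The centre of the level `k` cell of `x`. -/
noncomputable def ctr {d : ℕ} (τ : T d) (k : ℕ) (x : V d) : V d := fun i =>
  x i - (res τ k x i).valMinAbs

/-! ### The statements -/

/-- (AUT) the automorphisms of the lattice are the signed permutations with translations. -/
def S_AUT : Prop := ∀ (d : ℕ) (φ : zd d ≃g zd d), ∃ (σ : Equiv.Perm (Fin d)) (ε a : Fin d → ℤ),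
    (∀ i, ε i = 1 ∨ ε i = -1) ∧ ∀ (x : V d) (i : Fin d), φ x i = ε i * x (σ i) + a i

/-- (NUP) -/
def S_NUP : Prop := IsProbabilityMeasure nu1

/-- (NUU) residues are uniform. -/
def S_NUU : Prop := ∀ (n : ℕ) (a : ZMod (2 ^ n)),
    nu1 {z | PadicInt.toZModPow n z = a} = ENNReal.ofReal (1 / 2 ^ n)

/-- (NUI) signed permutations with translations preserve the measure. -/
def S_NUI : Prop := ∀ (d : ℕ) (σ : Equiv.Perm (Fin d)) (ε a : Fin d → ℤ),
    (∀ i, ε i = 1 ∨ ε i = -1) →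
      MeasurePreserving (fun (τ : T d) (j : Fin d) =>
        (ε (σ.symm j) : ℤ_[2]) * (τ (σ.symm j) - (a (σ.symm j) : ℤ_[2]))) (nu d) (nu d)

/-- (MEAS) -/
def S_MEAS : Prop := ∀ d : ℕ, (∀ e : Sym2 (V d), Measurable (fun τ : T d => noise τ e)) ∧
    (∀ e : Sym2 (V d), MeasurableSet {τ : T d | base τ e}) ∧ Measurable (cfg (d := d))

/-- (INV) -/
def S_INV : Prop := ∀ d : ℕ, Invar (mu d)

/-- (POS) the noise is positive. -/
def S_POS : Prop := ∀ d : ℕ, 2 ≤ d → ∀ e : E d, ∀ᵐ τ ∂(nu d), 0 < noise τ e.1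

/-- (FE) finite energy. -/
def S_FE : Prop := ∀ d : ℕ, 2 ≤ d → FinEn (mu d)

/-- (UNI) union bound for flips: the probability that some edge of a box with noise at most `δ` is
flipped. -/
def S_UNI : Prop := ∀ (d : ℕ) (x0 : V d) (R : ℕ) (δ : ℝ), 0 ≤ δ → ∀ C : T d → Sym2 (V d) → Prop,
    (∀ e, MeasurableSet {τ | C τ e}) → (∀ τ e, C τ e → noise τ e ≤ δ) →
      P d {x | ∃ e : E d, (∀ y ∈ e.1, ∀ i, |y i - x0 i| ≤ (R : ℤ)) ∧ C x.1 e.1 ∧
        (x.2 e : ℝ) < noise x.1 e.1} ≤ ENNReal.ofReal ((d + 1) * (2 * R + 1) ^ d * δ)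

/-- The good event of level `k` at the origin. -/
def Gd {d : ℕ} (τ : T d) (k : ℕ) : Prop :=
  ∀ i, 2 * off τ (k + 1) 0 i + 2 * (k + 1) + 4 * 2 ^ (k ^ 2) < 2 ^ ((k + 1) ^ 2)

/-- No flip on the roads of level `k` near the origin. -/
def NF {d : ℕ} (x : T d × (E d → unitInterval)) (k : ℕ) : Prop :=
  ∀ e : E d, (∀ y ∈ e.1, ∀ i, |y i| ≤ (2 ^ ((k + 1) ^ 2) : ℤ)) → road x.1 k e.1 →
    ¬ ((x.2 e : ℝ) < noise x.1 e.1)

/-- (PD) percolation, deterministic part. -/
def S_PD : Prop := ∀ (d : ℕ) (x : T d × (E d → unitInterval)) (k0 : ℕ),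
    (∀ k, k0 ≤ k → Gd x.1 k ∧ NF x k) →
    (∀ M : ℤ, ∃ k, k0 ≤ k ∧ ∃ i, M < |ctr x.1 k 0 i|) → Perc (cfg x)

/-- (PP) percolation, probabilistic part. -/
def S_PP : Prop := ∀ d : ℕ, 2 ≤ d → ∀ᵐ x ∂(P d), ∃ k0 : ℕ, (∀ k, k0 ≤ k → Gd x.1 k ∧ NF x k) ∧
    (∀ M : ℤ, ∃ k, k0 ≤ k ∧ ∃ i, M < |ctr x.1 k 0 i|)

/-- No flip on the walls of level `k` near `x0`. -/
def NW {d : ℕ} (x : T d × (E d → unitInterval)) (k : ℕ) (x0 : V d) : Prop :=
  ∀ e : E d, (∀ y ∈ e.1, ∀ i, |y i - x0 i| ≤ (2 ^ (k ^ 2) : ℤ)) → wall x.1 k e.1 →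
    ¬ ((x.2 e : ℝ) < noise x.1 e.1)

/-- The points of the gate `(i, s)` of the cell with centre `c`. -/
def gpt {d : ℕ} (c : V d) (i : Fin d) (s : ℤ) (m : ℕ) : V d := Function.update c i (c i + s * m)

theorem gadj {d : ℕ} (c : V d) (i : Fin d) (s : ℤ) (hs : s = 1 ∨ s = -1) (m : ℕ) :
    (zd d).Adj (gpt c i s m) (gpt c i s (m + 1)) := by
  show ∑ j, (gpt c i s m j - gpt c i s (m + 1) j) ^ 2 = 1
  rw [Finset.sum_eq_single i]
  · unfold gpt
    rw [Function.update_self, Function.update_self]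
    push_cast
    rcases hs with h | h <;> subst h <;> ring
  · intro j _ hj
    unfold gpt
    rw [Function.update_of_ne hj, Function.update_of_ne hj]
    ring
  · intro h
    exact absurd (Finset.mem_univ i) h

/-- All `2 d` gates of the cell with centre `c` are cut by the thinning. -/
def Cut {d : ℕ} (B : E d → Bool) (k : ℕ) (c : V d) : Prop :=
  ∀ (i : Fin d) (s : ℤ) (hs : s = 1 ∨ s = -1), ∃ m : ℕ, 2 ^ (k ^ 2) ≤ 2 * m + 2 * k ∧
    2 * m + 2 ≤ 2 ^ (k ^ 2) ∧ B ⟨s(gpt c i s m, gpt c i s (m + 1)), gadj c i s hs m⟩ = false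

/-- (TD) thinning, deterministic part. -/
def S_TD : Prop := ∀ (d : ℕ) (x : T d × (E d → unitInterval)) (B : E d → Bool) (k : ℕ) (x0 : V d),
    2 ≤ k → (∀ i, ¬ slab x.1 k i x0) → NW x k x0 → Cut B k (ctr x.1 k x0) →
      {y | (opn (fun e => cfg x e && B e)).Reachable x0 y}.Finite

/-- (TP1) the probability that a vertex lies in a slab. -/
def S_TP1 : Prop := ∀ (d : ℕ) (x0 : V d) (η : ℝ), 0 < η → ∃ K : ℕ, ∀ k, K ≤ k →
    (nu d) {τ | ∃ i, slab τ k i x0} ≤ ENNReal.ofReal η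

/-- (TP2) the probability that some gate is not cut. -/
def S_TP2 : Prop := ∀ (d : ℕ) (p : unitInterval), p < 1 → ∀ (η : ℝ), 0 < η → ∃ K : ℕ, ∀ k, K ≤ k →
    ∀ c : V d, (Measure.infinitePi (fun _ : E d => bern p)) {B | ¬ Cut B k c} ≤ ENNReal.ofReal η

/-- (MP) the percolation event is measurable. -/
def S_MP : Prop := ∀ d : ℕ, MeasurableSet {ω : Conf d | Perc ω}

/-- (TF) thinning, conclusion. -/
def S_TF : Prop := ∀ d : ℕ, 2 ≤ d → ∀ p : unitInterval, p < 1 →
    ∀ᵐ ω ∂(thin p (mu d)), ¬ Perc ω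

end H985FE
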