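import Pool.Agent.H985R5.FE.Defs

/-!
# FE: finite energy
-/

set_option autoImplicit false

namespace H985FE

open MeasureTheory Finset

namespace FE971

variable {d : ℕ}

open Classical in
/-- resampling of one coordinate -/
noncomputable def rs (e : E d) (p : (E d → unitInterval) × unitInterval) : E d → unitInterval :=
  Function.update p.1 e p.2

theorem rs_self (e : E d) (p : (E d → unitInterval) × unitInterval) : rs e p e = p.2 := by
  unfold rs
  rw [Function.update_self]

theorem rs_ne (e : E d) (p : (E d → unitInterval) × unitInterval) (f : E d) (h : f ≠ e) :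
    rs e p f = p.1 f := by
  unfold rs
  rw [Function.update_of_ne h]

theorem rs_meas (e : E d) : Measurable (rs e) := by
  refine measurable_pi_iff.2 fun f => ?_
  by_cases h : f = e
  · subst h
    simp only [rs_self]
    exact measurable_snd
  · simp only [rs_ne e _ f h]
    exact (measurable_pi_apply f).comp measurable_fst

theorem rs_mp (e : E d) : MeasurePreserving (rs e)
    ((Measure.infinitePi (fun _ : E d => (volume : Measure unitInterval))).prod volume)
    (Measure.infinitePi (fun _ : E d => (volume : Measure unitInterval))) := by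
  classical
  refine ⟨rs_meas e, ?_⟩
  refine Measure.eq_infinitePi _ fun s t ht => ?_
  rw [Measure.map_apply (rs_meas e) (MeasurableSet.pi s.countable_toSet (fun i _ => ht i))]
  by_cases he : e ∈ s
  · have h1 : rs e ⁻¹' (Set.pi (s : Set (E d)) t) =
        (Set.pi ((s.erase e : Finset (E d)) : Set (E d)) t) ×ˢ t e := by
      ext p
      simp only [Set.mem_preimage, Set.mem_pi, Set.mem_prod, Finset.mem_coe, Finset.mem_erase]
      constructor
      · intro h
        refine ⟨fun i hi => ?_, ?_⟩
        · have := h i hi.2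
          rwa [rs_ne e p i hi.1] at this
        · have := h e he
          rwa [rs_self] at this
      · rintro ⟨h2, h3⟩ i hi
        by_cases hie : i = e
        · rw [hie, rs_self]
          exact h3
        · rw [rs_ne e p i hie]
          exact h2 i ⟨hie, hi⟩
    rw [h1, Measure.prod_prod, Measure.infinitePi_pi _ (fun i _ => ht i), mul_comm,
      Finset.mul_prod_erase s (fun i => volume (t i)) he]
  · have h1 : rs e ⁻¹' (Set.pi (s : Set (E d)) t) =
        (Set.pi (s : Set (E d)) t) ×ˢ Set.univ := by
      ext p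
      simp only [Set.mem_preimage, Set.mem_pi, Set.mem_prod, Finset.mem_coe, Set.mem_univ,
        and_true]
      refine forall_congr' fun i => forall_congr' fun hi => ?_
      rw [rs_ne e p i (fun h => he (h ▸ hi))]
    rw [h1, Measure.prod_prod, Measure.infinitePi_pi _ (fun i _ => ht i), measure_univ, mul_one]

/-- resampling on the sample space -/
noncomputable def Rs (e : E d) (p : (T d × (E d → unitInterval)) × unitInterval) :
    T d × (E d → unitInterval) := (p.1.1, rs e (p.1.2, p.2))

theorem Rs_mp [IsProbabilityMeasure nu1] (e : E d) :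
    MeasurePreserving (Rs e) ((P d).prod volume) (P d) := by
  have : IsProbabilityMeasure (nu d) := by unfold nu; infer_instance
  have h1 : MeasurePreserving (MeasurableEquiv.prodAssoc :
      (T d × (E d → unitInterval)) × unitInterval ≃ᵐ _) ((P d).prod volume)
      ((nu d).prod ((Measure.infinitePi (fun _ : E d => (volume : Measure unitInterval))).prod
        volume)) := by
    unfold P
    exact measurePreserving_prodAssoc _ _ _
  have h2 : MeasurePreserving (Prod.map id (rs e)) ((nu d).prod
      ((Measure.infinitePi (fun _ : E d => (volume : Measure unitInterval))).prod volume))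
      ((nu d).prod (Measure.infinitePi (fun _ : E d => (volume : Measure unitInterval)))) :=
    (MeasurePreserving.id _).prod (rs_mp e)
  exact h2.comp h1

theorem cfg_Rs_ne (e : E d) (p : (T d × (E d → unitInterval)) × unitInterval) (f : E d)
    (h : f ≠ e) : cfg (Rs e p) f = cfg p.1 f := by
  unfold cfg Rs
  simp only [rs_ne e _ f h]

theorem cfg_Rs_self (e : E d) (p : (T d × (E d → unitInterval)) × unitInterval) :
    cfg (Rs e p) e = if ((p.2 : ℝ) < noise p.1.1 e.1) then
      !(@decide (base p.1.1 e.1) (Classical.propDecidable _)) else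
      @decide (base p.1.1 e.1) (Classical.propDecidable _) := by
  unfold cfg Rs
  simp only [rs_self]

theorem noise_lt (τ : T d) (e : Sym2 (V d)) (hd : 2 ≤ d) : noise τ e < 1 := by
  classical
  unfold noise
  have h1 : (⨅ k : ℕ, if wall τ k e ∨ road τ k e then dk d k else 1 / 2) ≤
      if wall τ 0 e ∨ road τ 0 e then dk d 0 else 1 / 2 := by
    refine ciInf_le ⟨0, ?_⟩ 0
    rintro _ ⟨k, rfl⟩
    dsimp only
    split_ifs
    · unfold dk
      positivity
    · norm_num
  refine lt_of_le_of_lt h1 ?_
  split_ifs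
  · unfold dk
    rw [div_lt_one (by positivity)]
    have h2 : (1 : ℝ) ≤ (3 * 2 ^ ((0 + 1) ^ 2)) ^ d := one_le_pow₀ (by norm_num)
    have h3 : (2 : ℝ) ≤ d := by exact_mod_cast hd
    have h4 : (2 : ℝ) ^ 0 = 1 := pow_zero _
    rw [h4, one_mul]
    nlinarith
  · norm_num

theorem vol_lt (c : ℝ) (h0 : 0 < c) (h1 : c < 1) :
    0 < (volume : Measure unitInterval) {v | (v : ℝ) < c} ∧
      0 < (volume : Measure unitInterval) {v | ¬ (v : ℝ) < c} := by
  have h2 : {v : unitInterval | (v : ℝ) < c} = Set.Iio (⟨c, h0.le, h1.le⟩ : unitInterval) := by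
    ext v
    rfl
  have h3 : {v : unitInterval | ¬ (v : ℝ) < c} = Set.Ici (⟨c, h0.le, h1.le⟩ : unitInterval) := by
    ext v
    show ¬ ((v : ℝ) < c) ↔ c ≤ (v : ℝ)
    rw [not_lt]
  rw [h2, h3, unitInterval.volume_Iio, unitInterval.volume_Ici]
  constructor
  · rw [ENNReal.ofReal_pos]
    exact h0
  · rw [ENNReal.ofReal_pos]
    show 0 < 1 - c
    linarith

theorem bset_meas (e : E d) (b : Bool) : MeasurableSet {ω : Conf d | ω e = b} := by
  have h : {ω : Conf d | ω e = b} = (fun ω : Conf d => ω e) ⁻¹' {b} := by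
    ext ω
    simp
  rw [h]
  exact (measurable_pi_apply e : Measurable (fun ω : Conf d => ω e)) (MeasurableSet.singleton b)

theorem key (hP : S_NUP) (hM : S_MEAS) (hpos : S_POS) (hd : 2 ≤ d) (e : E d) (b : Bool)
    (A : Set (Conf d)) (hA : @MeasurableSet _ (others e) A)
    (h0 : mu d (A ∩ {ω | ω e = b}) = 0) : mu d A = 0 := by
  have : IsProbabilityMeasure nu1 := hP
  have : IsProbabilityMeasure (nu d) := by unfold nu; infer_instance
  obtain ⟨hn, hb, hc⟩ := hM d
  have hle : others e ≤ (inferInstance : MeasurableSpace (Conf d)) := by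
    unfold others
    refine Measurable.comap_le ?_
    exact measurable_pi_iff.2 fun f => measurable_pi_apply _
  have hAm : MeasurableSet A := hle A hA
  have hbm : MeasurableSet {ω : Conf d | ω e = b} := bset_meas e b
  unfold mu at h0 ⊢
  rw [Measure.map_apply hc (hAm.inter hbm)] at h0
  rw [Measure.map_apply hc hAm]
  have hSm : MeasurableSet (cfg ⁻¹' (A ∩ {ω : Conf d | ω e = b})) := hc (hAm.inter hbm)
  rw [← (Rs_mp e).measure_preimage hSm.nullMeasurableSet] at h0
  rw [Measure.measure_prod_null ((Rs_mp e).measurable hSm)] at h0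
  -- invariance of A
  obtain ⟨B, hB, hAB⟩ := hA
  have hinv : ∀ p : (T d × (E d → unitInterval)) × unitInterval,
      cfg (Rs e p) ∈ A ↔ cfg p.1 ∈ A := by
    intro p
    rw [← hAB]
    show (fun f : {f : E d // f ≠ e} => cfg (Rs e p) f) ∈ B ↔
      (fun f : {f : E d // f ≠ e} => cfg p.1 f) ∈ B
    have : (fun f : {f : E d // f ≠ e} => cfg (Rs e p) f) =
        (fun f : {f : E d // f ≠ e} => cfg p.1 f) := by
      funext f
      exact cfg_Rs_ne e p f f.2
    rw [this]
  have hpos' : ∀ᵐ x ∂(P d), 0 < noise x.1 e.1 := by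
    unfold P
    exact Measure.quasiMeasurePreserving_fst.ae (hpos d hd e)
  have : ∀ᵐ x ∂(P d), x ∉ cfg ⁻¹' A := by
    filter_upwards [h0, hpos'] with x hx hx' hxA
    have hlt := noise_lt x.1 e.1 hd
    obtain ⟨h1, h2⟩ := vol_lt _ hx' hlt
    have hx2 : (volume : Measure unitInterval)
        (Prod.mk x ⁻¹' (Rs e ⁻¹' (cfg ⁻¹' (A ∩ {ω : Conf d | ω e = b})))) = 0 := hx
    have hset : (Prod.mk x ⁻¹' (Rs e ⁻¹' (cfg ⁻¹' (A ∩ {ω : Conf d | ω e = b})))) =
        {v | cfg (Rs e (x, v)) e = b} := by
      ext v
      show (cfg (Rs e (x, v)) ∈ A ∧ cfg (Rs e (x, v)) e = b) ↔ cfg (Rs e (x, v)) e = b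
      rw [hinv]
      exact ⟨fun h => h.2, fun h => ⟨hxA, h⟩⟩
    rw [hset] at hx2
    by_cases hbb : (@decide (base x.1 e.1) (Classical.propDecidable _)) = b
    · have : {v : unitInterval | ¬ (v : ℝ) < noise x.1 e.1} ⊆
          {v | cfg (Rs e (x, v)) e = b} := by
        intro v hv
        show cfg (Rs e (x, v)) e = b
        rw [cfg_Rs_self, if_neg hv]
        exact hbb
      exact absurd (measure_mono_null this hx2) h2.ne'
    · have : {v : unitInterval | (v : ℝ) < noise x.1 e.1} ⊆
          {v | cfg (Rs e (x, v)) e = b} := by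
        intro v hv
        show cfg (Rs e (x, v)) e = b
        have hv' : ((x, v).2 : ℝ) < noise (x, v).1.1 e.1 := hv
        rw [cfg_Rs_self, if_pos hv']
        cases b <;> cases h : (@decide (base x.1 e.1) (Classical.propDecidable _)) <;>
          simp_all
      exact absurd (measure_mono_null this hx2) h1.ne'
  have h3 := ae_iff.1 this
  have h4 : {a | ¬ a ∉ cfg ⁻¹' A} = (cfg ⁻¹' A : Set (T d × (E d → unitInterval))) := by
    ext a
    exact not_not
  rwa [h4] at h3

end FE971

open FE971 in
theorem t_fe (hP : S_NUP) (hM : S_MEAS) (hpos : S_POS) : S_FE := by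
  intro d hd e
  have : IsProbabilityMeasure nu1 := hP
  have : IsProbabilityMeasure (nu d) := by unfold nu; infer_instance
  have : IsProbabilityMeasure (P d) := by unfold P; infer_instance
  have : IsProbabilityMeasure (mu d) := by
    unfold mu
    exact Measure.isProbabilityMeasure_map (hM d).2.2.aemeasurable
  have hle : others e ≤ (inferInstance : MeasurableSpace (Conf d)) := by
    unfold others
    refine Measurable.comap_le ?_
    exact measurable_pi_iff.2 fun f => measurable_pi_apply _
  have htm : MeasurableSet {ω : Conf d | ω e = true} := bset_meas e true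
  set f : Conf d → ℝ := Set.indicator {ω | ω e = true} (fun _ => (1 : ℝ)) with hf
  have hfi : Integrable f (mu d) := (integrable_const (1 : ℝ)).indicator htm
  set g := (mu d)[f | others e] with hg
  have hgm : StronglyMeasurable[others e] g := stronglyMeasurable_condExp
  have hint : ∀ A : Set (Conf d), @MeasurableSet _ (others e) A →
      ∫ ω in A, g ω ∂(mu d) = (mu d).real (A ∩ {ω | ω e = true}) := by
    intro A hA
    rw [hg, setIntegral_condExp hle hfi hA, hf, setIntegral_indicator htm]
    simp
  have h1 : ∀ᵐ ω ∂(mu d), 0 < g ω := by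
    have hA : @MeasurableSet _ (others e) {ω | g ω ≤ 0} :=
      hgm.measurable measurableSet_Iic
    have h2 : ∫ ω in {ω | g ω ≤ 0}, g ω ∂(mu d) ≤ 0 :=
      setIntegral_nonpos (hle _ hA) (fun ω hω => hω)
    rw [hint _ hA] at h2
    have h3 : (mu d).real ({ω | g ω ≤ 0} ∩ {ω | ω e = true}) = 0 :=
      le_antisymm h2 measureReal_nonneg
    rw [measureReal_eq_zero_iff] at h3
    have h4 := key hP hM hpos hd e true _ hA h3
    rw [ae_iff]
    convert h4 using 2
    ext ω
    simp
  have h2 : ∀ᵐ ω ∂(mu d), g ω < 1 := by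
    have hA : @MeasurableSet _ (others e) {ω | 1 ≤ g ω} :=
      hgm.measurable measurableSet_Ici
    have h2 : (mu d).real {ω | 1 ≤ g ω} ≤ ∫ ω in {ω | 1 ≤ g ω}, g ω ∂(mu d) := by
      have h3 : ∫ ω in {ω | 1 ≤ g ω}, (1 : ℝ) ∂(mu d) ≤ ∫ ω in {ω | 1 ≤ g ω}, g ω ∂(mu d) := by
        refine setIntegral_mono_on (integrable_const _).integrableOn
          integrable_condExp.integrableOn (hle _ hA) (fun ω hω => hω)
      simpa using h3
    rw [hint _ hA] at h2
    have h5 : (mu d).real ({ω | 1 ≤ g ω} ∩ {ω | ω e = true}) +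
        (mu d).real ({ω | 1 ≤ g ω} ∩ {ω | ω e = false}) = (mu d).real {ω | 1 ≤ g ω} := by
      rw [← measureReal_inter_add_sdiff (s := {ω | 1 ≤ g ω}) htm]
      congr 2
      ext ω
      simp
    have h3 : (mu d).real ({ω | 1 ≤ g ω} ∩ {ω | ω e = false}) = 0 :=
      le_antisymm (by linarith) measureReal_nonneg
    rw [measureReal_eq_zero_iff] at h3
    have h4 := key hP hM hpos hd e false _ hA h3
    rw [ae_iff]
    convert h4 using 2
    ext ω
    simp
  filter_upwards [h1, h2] with ω ha hb
  exact ⟨ha, hb⟩

end H985FE
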