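import Pool.Agent.H985R5.FE.Defs

set_option autoImplicit false

namespace H985FE

open MeasureTheory Finset

namespace INVaux

/-- The shifted environment. -/
noncomputable def tr {d : ℕ} (σ : Equiv.Perm (Fin d)) (ε a : Fin d → ℤ) (τ : T d) : T d :=
  fun j => (ε (σ.symm j) : ℤ_[2]) * (τ (σ.symm j) - (a (σ.symm j) : ℤ_[2]))

variable {d : ℕ} {φ : zd d ≃g zd d} {σ : Equiv.Perm (Fin d)} {ε a : Fin d → ℤ}

theorem res_tr (hε : ∀ i, ε i = 1 ∨ ε i = -1)
    (hφ : ∀ (x : V d) (i : Fin d), φ x i = ε i * x (σ i) + a i)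
    (τ : T d) (k : ℕ) (x : V d) (i : Fin d) :
    res τ k (φ x) i = ((ε i : ℤ) : ZMod (2 ^ (k ^ 2))) * res (tr σ ε a τ) k x (σ i) := by
  unfold res tr
  rw [hφ, Equiv.symm_apply_apply, map_mul, map_sub, map_intCast, map_intCast]
  rcases hε i with h | h <;> rw [h] <;> push_cast <;> ring

theorem off_tr (hε : ∀ i, ε i = 1 ∨ ε i = -1)
    (hφ : ∀ (x : V d) (i : Fin d), φ x i = ε i * x (σ i) + a i)
    (τ : T d) (k : ℕ) (x : V d) (i : Fin d) :
    off τ k (φ x) i = off (tr σ ε a τ) k x (σ i) := by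
  unfold off
  rw [res_tr hε hφ]
  rcases hε i with h | h
  · rw [h, Int.cast_one, one_mul]
  · rw [h, Int.cast_neg, Int.cast_one, neg_one_mul, ZMod.natAbs_valMinAbs_neg]

theorem slab_tr (hε : ∀ i, ε i = 1 ∨ ε i = -1)
    (hφ : ∀ (x : V d) (i : Fin d), φ x i = ε i * x (σ i) + a i)
    (τ : T d) (k : ℕ) (x : V d) (i : Fin d) :
    slab τ k i (φ x) ↔ slab (tr σ ε a τ) k (σ i) x := by
  unfold slab
  rw [off_tr hε hφ]

theorem res0_tr (hε : ∀ i, ε i = 1 ∨ ε i = -1)
    (hφ : ∀ (x : V d) (i : Fin d), φ x i = ε i * x (σ i) + a i)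
    (τ : T d) (k : ℕ) (x : V d) (i : Fin d) :
    res τ k (φ x) i = 0 ↔ res (tr σ ε a τ) k x (σ i) = 0 := by
  rw [res_tr hε hφ]
  rcases hε i with h | h
  · rw [h, Int.cast_one, one_mul]
  · rw [h, Int.cast_neg, Int.cast_one, neg_one_mul, neg_eq_zero]

theorem wall_tr (hε : ∀ i, ε i = 1 ∨ ε i = -1)
    (hφ : ∀ (x : V d) (i : Fin d), φ x i = ε i * x (σ i) + a i)
    (τ : T d) (k : ℕ) (e : Sym2 (V d)) :
    wall τ k (e.map φ) ↔ wall (tr σ ε a τ) k e := by
  unfold wall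
  constructor
  · rintro ⟨i, h⟩
    refine ⟨σ i, fun x hx => ?_⟩
    rw [← slab_tr hε hφ]
    exact h _ (Sym2.mem_map.2 ⟨x, hx, rfl⟩)
  · rintro ⟨j, h⟩
    refine ⟨σ.symm j, fun y hy => ?_⟩
    obtain ⟨x, hx, rfl⟩ := Sym2.mem_map.1 hy
    rw [slab_tr hε hφ, Equiv.apply_symm_apply]
    exact h x hx

theorem eq_tr (hε : ∀ i, ε i = 1 ∨ ε i = -1)
    (hφ : ∀ (x : V d) (i : Fin d), φ x i = ε i * x (σ i) + a i) (x y : V d) (i : Fin d) :
    φ x i = φ y i ↔ x (σ i) = y (σ i) := by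
  rw [hφ, hφ]
  rcases hε i with h | h <;> rw [h] <;> constructor <;> intro h2 <;> linarith

theorem road_tr (hε : ∀ i, ε i = 1 ∨ ε i = -1)
    (hφ : ∀ (x : V d) (i : Fin d), φ x i = ε i * x (σ i) + a i)
    (τ : T d) (k : ℕ) (e : Sym2 (V d)) :
    road τ k (e.map φ) ↔ road (tr σ ε a τ) k e := by
  unfold road
  constructor
  · intro h j hj x hx
    have h1 := h (σ.symm j) (by
      intro x' hx' y' hy'
      obtain ⟨x, hx, rfl⟩ := Sym2.mem_map.1 hx'
      obtain ⟨y, hy, rfl⟩ := Sym2.mem_map.1 hy'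
      rw [eq_tr hε hφ, Equiv.apply_symm_apply]
      exact hj x hx y hy) (φ x) (Sym2.mem_map.2 ⟨x, hx, rfl⟩)
    rw [res0_tr hε hφ, Equiv.apply_symm_apply] at h1
    exact h1
  · intro h i hi x' hx'
    obtain ⟨x, hx, rfl⟩ := Sym2.mem_map.1 hx'
    rw [res0_tr hε hφ]
    refine h (σ i) (fun x hx y hy => ?_) x hx
    rw [← eq_tr hε hφ]
    exact hi _ (Sym2.mem_map.2 ⟨x, hx, rfl⟩) _ (Sym2.mem_map.2 ⟨y, hy, rfl⟩)

theorem base_tr (hε : ∀ i, ε i = 1 ∨ ε i = -1)
    (hφ : ∀ (x : V d) (i : Fin d), φ x i = ε i * x (σ i) + a i)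
    (τ : T d) (e : Sym2 (V d)) :
    base τ (e.map φ) ↔ base (tr σ ε a τ) e := by
  unfold base
  exact forall_congr' fun k => by rw [wall_tr hε hφ, road_tr hε hφ]

open Classical in
theorem noise_tr (hε : ∀ i, ε i = 1 ∨ ε i = -1)
    (hφ : ∀ (x : V d) (i : Fin d), φ x i = ε i * x (σ i) + a i)
    (τ : T d) (e : Sym2 (V d)) :
    noise τ (e.map φ) = noise (tr σ ε a τ) e := by
  unfold noise
  refine iInf_congr fun k => ?_
  have h : (wall τ k (e.map φ) ∨ road τ k (e.map φ)) =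
      (wall (tr σ ε a τ) k e ∨ road (tr σ ε a τ) k e) :=
    propext (by rw [wall_tr hε hφ, road_tr hε hφ])
  by_cases hc : wall (tr σ ε a τ) k e ∨ road (tr σ ε a τ) k e
  · rw [if_pos (h ▸ hc), if_pos hc]
  · rw [if_neg (fun h' => hc (h ▸ h')), if_neg hc]

open Classical in
theorem cfg_tr (hε : ∀ i, ε i = 1 ∨ ε i = -1)
    (hφ : ∀ (x : V d) (i : Fin d), φ x i = ε i * x (σ i) + a i)
    (x : T d × (E d → unitInterval)) (e : E d) :
    cfg x (φ.mapEdgeSet e) =
      cfg (Prod.map (tr σ ε a) (fun (U : E d → unitInterval) (e : E d) => U (φ.mapEdgeSet e)) x) e := by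
  have he : (φ.mapEdgeSet e).1 = e.1.map φ := rfl
  have hn : noise x.1 (φ.mapEdgeSet e).1 = noise (tr σ ε a x.1) e.1 := by
    rw [he, noise_tr hε hφ]
  have hb : base x.1 (φ.mapEdgeSet e).1 ↔ base (tr σ ε a x.1) e.1 := by
    rw [he, base_tr hε hφ]
  show (if ((x.2 (φ.mapEdgeSet e) : ℝ) < noise x.1 (φ.mapEdgeSet e).1)
      then !(@decide (base x.1 (φ.mapEdgeSet e).1) (Classical.propDecidable _))
      else @decide (base x.1 (φ.mapEdgeSet e).1) (Classical.propDecidable _)) =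
    (if ((x.2 (φ.mapEdgeSet e) : ℝ) < noise (tr σ ε a x.1) e.1)
      then !(@decide (base (tr σ ε a x.1) e.1) (Classical.propDecidable _))
      else @decide (base (tr σ ε a x.1) e.1) (Classical.propDecidable _))
  have hd : (@decide (base x.1 (φ.mapEdgeSet e).1) (Classical.propDecidable _)) =
      (@decide (base (tr σ ε a x.1) e.1) (Classical.propDecidable _)) := by
    by_cases h : base (tr σ ε a x.1) e.1
    · rw [decide_eq_true h, decide_eq_true (hb.2 h)]
    · rw [decide_eq_false h, decide_eq_false (fun h' => h (hb.1 h'))]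
  rw [hn, hd]

/-- Reindexing an infinite product of identical measures. -/
theorem reindex {ι : Type*} {X : Type*} [MeasurableSpace X] (m : Measure X)
    [IsProbabilityMeasure m] (f : ι ≃ ι) :
    MeasurePreserving (fun (U : ι → X) (e : ι) => U (f e)) (Measure.infinitePi (fun _ : ι => m))
      (Measure.infinitePi (fun _ : ι => m)) := by
  refine ⟨measurable_pi_lambda _ fun e => measurable_pi_apply _, ?_⟩
  have h := Measure.infinitePi_map_piCongrLeft (μ := fun _ : ι => m) f.symm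
  have h2 : (MeasurableEquiv.piCongrLeft (fun _ : ι => X) f.symm : (ι → X) → (ι → X))
      = fun (U : ι → X) (e : ι) => U (f e) := by
    funext U e
    have := Equiv.piCongrLeft_apply_apply (fun _ : ι => X) f.symm U (f e)
    rw [Equiv.symm_apply_apply] at this
    exact this
  rw [h2] at h
  exact h

end INVaux

open INVaux

theorem t_inv (hA : S_AUT) (hN : S_NUI) (hM : S_MEAS) (hP : S_NUP) : S_INV := by
  intro d φ
  obtain ⟨σ, ε, a, hε, hφ⟩ := hA d φ
  have hm : Measurable (cfg (d := d)) := (hM d).2.2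
  have : IsProbabilityMeasure nu1 := hP
  have : IsProbabilityMeasure (nu d) := by unfold nu; infer_instance
  have h1 : MeasurePreserving (tr σ ε a) (nu d) (nu d) := hN d σ ε a hε
  have h2 := reindex (volume : Measure unitInterval) (φ.mapEdgeSet)
  have h3 : MeasurePreserving (Prod.map (tr σ ε a)
      (fun (U : E d → unitInterval) (e : E d) => U (φ.mapEdgeSet e))) (P d) (P d) := h1.prod h2
  have hr : Measurable (fun (ω : Conf d) (e : E d) => ω (φ.mapEdgeSet e)) :=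
    measurable_pi_lambda _ fun e => measurable_pi_apply _
  unfold mu
  rw [Measure.map_map hr hm]
  have h4 : ((fun (ω : Conf d) (e : E d) => ω (φ.mapEdgeSet e)) ∘ cfg) =
      cfg ∘ (Prod.map (tr σ ε a)
      (fun (U : E d → unitInterval) (e : E d) => U (φ.mapEdgeSet e))) := by
    funext x e
    exact cfg_tr hε hφ x e
  rw [h4, ← Measure.map_map hm h3.measurable, h3.map_eq]

end H985FE
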