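import Pool.Agent.H985R5.FE.Defs

set_option autoImplicit false

namespace H985FE

open MeasureTheory Finset

namespace NUPaux

/-- the fibres of the reduction are open -/
theorem fib_open (n : ℕ) (a : ZMod (2 ^ n)) : IsOpen {z : ℤ_[2] | PadicInt.toZModPow n z = a} := by
  rw [Metric.isOpen_iff]
  intro z hz
  refine ⟨(2 : ℝ) ^ (-(n : ℤ)), by positivity, ?_⟩
  intro w hw
  rw [mem_ball_iff_norm] at hw
  have h1 : w - z ∈ (Ideal.span {(2 : ℤ_[2]) ^ n}) := by
    have := (PadicInt.norm_le_pow_iff_mem_span_pow (p := 2) (w - z) n).1 (by exact_mod_cast hw.le)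
    exact_mod_cast this
  have h2 : w - z ∈ RingHom.ker (PadicInt.toZModPow (p := 2) n) := by
    rw [PadicInt.ker_toZModPow]
    exact_mod_cast h1
  rw [RingHom.mem_ker, map_sub, sub_eq_zero] at h2
  show PadicInt.toZModPow n w = a
  rw [h2]
  exact hz

theorem set_open (n : ℕ) (S : Set (ZMod (2 ^ n))) :
    IsOpen {z : ℤ_[2] | PadicInt.toZModPow n z ∈ S} := by
  have h : {z : ℤ_[2] | PadicInt.toZModPow n z ∈ S} =
      ⋃ a ∈ S, {z : ℤ_[2] | PadicInt.toZModPow n z = a} := by
    ext z
    simp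
  rw [h]
  exact isOpen_biUnion fun a _ => fib_open n a

end NUPaux

open NUPaux

theorem t_nup : S_NUP := by
  unfold S_NUP nu1
  constructor
  have h := Measure.addHaarMeasure_self (K₀ := (⊤ : TopologicalSpace.PositiveCompacts ℤ_[2]))
  simpa using h

theorem t_nuu : S_NUU := by
  intro n a
  have hP : IsProbabilityMeasure nu1 := t_nup
  have hinv : Measure.IsAddLeftInvariant nu1 := by
    unfold nu1
    infer_instance
  have hmeas : ∀ b : ZMod (2 ^ n), MeasurableSet {z : ℤ_[2] | PadicInt.toZModPow n z = b} :=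
    fun b => (fib_open n b).measurableSet
  have htr : ∀ b : ZMod (2 ^ n), nu1 {z | PadicInt.toZModPow n z = b} =
      nu1 {z | PadicInt.toZModPow n z = 0} := by
    intro b
    have h1 : {z : ℤ_[2] | PadicInt.toZModPow n z = b} =
        (fun z => (-(b.val : ℤ_[2])) + z) ⁻¹' {z | PadicInt.toZModPow n z = 0} := by
      have hb : PadicInt.toZModPow (p := 2) n ((b.val : ℕ) : ℤ_[2]) = b := by
        rw [map_natCast, ZMod.natCast_zmod_val]
      ext z
      show PadicInt.toZModPow n z = b ↔ PadicInt.toZModPow n (-((b.val : ℕ) : ℤ_[2]) + z) = 0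
      rw [map_add, map_neg, hb, neg_add_eq_zero, eq_comm]
    rw [h1, measure_preimage_add]
  have hsum := sum_measure_preimage_singleton (μ := nu1) (Finset.univ : Finset (ZMod (2 ^ n)))
    (f := fun z : ℤ_[2] => PadicInt.toZModPow n z) (fun b _ => hmeas b)
  have h2 : ∑ b : ZMod (2 ^ n), nu1 ((fun z : ℤ_[2] => PadicInt.toZModPow n z) ⁻¹' {b}) =
      (2 ^ n : ℕ) * nu1 {z | PadicInt.toZModPow n z = 0} := by
    calc _ = ∑ _b : ZMod (2 ^ n), nu1 {z | PadicInt.toZModPow n z = 0} :=
          Finset.sum_congr rfl fun b _ => htr b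
      _ = _ := by
          rw [Finset.sum_const, Finset.card_univ, ZMod.card, nsmul_eq_mul]
  rw [h2] at hsum
  simp only [Finset.coe_univ, Set.preimage_univ, measure_univ] at hsum
  rw [mul_comm] at hsum
  rw [htr a, ENNReal.eq_inv_of_mul_eq_one_left hsum, one_div,
    ENNReal.ofReal_inv_of_pos (by positivity), ENNReal.ofReal_pow (by norm_num)]
  simp

end H985FE
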