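import Pool.Agent.H985R5.FE.Defs
import Pool.Agent.H985R5.FE.NUP

set_option autoImplicit false

namespace H985FE

open MeasureTheory Finset

namespace MEASaux

/-- conditions on one residue are measurable -/
theorem res_meas {d : ℕ} (k : ℕ) (x : V d) (i : Fin d) (S : Set (ZMod (2 ^ (k ^ 2)))) :
    MeasurableSet {τ : T d | res τ k x i ∈ S} := by
  have h1 : MeasurableSet {z : ℤ_[2] | PadicInt.toZModPow (k ^ 2) z ∈
      {b : ZMod (2 ^ (k ^ 2)) | ((x i : ℤ) : ZMod (2 ^ (k ^ 2))) - b ∈ S}} :=
    (NUPaux.set_open (k ^ 2) _).measurableSet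
  have h2 : Measurable (fun τ : T d => τ i) := measurable_pi_apply i
  exact h2 h1

theorem slab_meas {d : ℕ} (k : ℕ) (x : V d) (i : Fin d) :
    MeasurableSet {τ : T d | slab τ k i x} :=
  res_meas k x i {b | 2 ^ (k ^ 2) ≤ 2 * b.valMinAbs.natAbs + 2 * k}

theorem wall_meas {d : ℕ} (k : ℕ) (e : Sym2 (V d)) : MeasurableSet {τ : T d | wall τ k e} := by
  have h : {τ : T d | wall τ k e} = ⋃ i, ⋂ x, ⋂ (_ : x ∈ e), {τ : T d | slab τ k i x} := by
    ext τ
    simp [wall]
  rw [h]
  exact MeasurableSet.iUnion fun i => MeasurableSet.iInter fun x => MeasurableSet.iInter fun _ =>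
    slab_meas k x i

theorem road_meas {d : ℕ} (k : ℕ) (e : Sym2 (V d)) : MeasurableSet {τ : T d | road τ k e} := by
  have h : {τ : T d | road τ k e} = ⋂ i, ⋂ (_ : ∀ x ∈ e, ∀ y ∈ e, x i = y i), ⋂ x, ⋂ (_ : x ∈ e),
      {τ : T d | res τ k x i ∈ ({0} : Set (ZMod (2 ^ (k ^ 2))))} := by
    ext τ
    simp [road]
  rw [h]
  exact MeasurableSet.iInter fun i => MeasurableSet.iInter fun _ => MeasurableSet.iInter fun x =>
    MeasurableSet.iInter fun _ => res_meas k x i {0}

theorem base_meas {d : ℕ} (e : Sym2 (V d)) : MeasurableSet {τ : T d | base τ e} := by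
  have h : {τ : T d | base τ e} = ⋂ k, ({τ : T d | wall τ k e}ᶜ ∪ {τ : T d | road τ k e}) := by
    ext τ
    simp only [base, Set.mem_iInter, Set.mem_union, Set.mem_compl_iff, Set.mem_ofPred_eq]
    exact forall_congr' fun k => imp_iff_not_or
  rw [h]
  exact MeasurableSet.iInter fun k => (wall_meas k e).compl.union (road_meas k e)

theorem noise_meas {d : ℕ} (e : Sym2 (V d)) : Measurable (fun τ : T d => noise τ e) := by
  unfold noise
  refine Measurable.iInf fun k => ?_
  exact Measurable.ite ((wall_meas k e).union (road_meas k e)) measurable_const measurable_const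

end MEASaux

open MEASaux

theorem t_meas : S_MEAS := by
  intro d
  refine ⟨noise_meas, base_meas, ?_⟩
  rw [measurable_pi_iff]
  intro e
  have h1 : MeasurableSet {x : T d × (E d → unitInterval) | (x.2 e : ℝ) < noise x.1 e.1} := by
    refine measurableSet_lt ?_ ((noise_meas e.1).comp measurable_fst)
    exact measurable_subtype_coe.comp ((measurable_pi_apply e).comp measurable_snd)
  have h2 : MeasurableSet {x : T d × (E d → unitInterval) | base x.1 e.1} :=
    measurable_fst (base_meas e.1)
  unfold cfg
  refine Measurable.ite h1 ?_ ?_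
  · refine measurable_to_bool ?_
    have : (fun x : T d × (E d → unitInterval) => !(@decide (base x.1 e.1)
        (Classical.propDecidable _))) ⁻¹' {true} =
        {x : T d × (E d → unitInterval) | base x.1 e.1}ᶜ := by
      ext x
      simp
    rw [this]
    exact h2.compl
  · refine measurable_to_bool ?_
    have : (fun x : T d × (E d → unitInterval) => @decide (base x.1 e.1)
        (Classical.propDecidable _)) ⁻¹' {true} =
        {x : T d × (E d → unitInterval) | base x.1 e.1} := by
      ext x
      simp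
    rw [this]
    exact h2

end H985FE
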