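import Pool.Agent.H985R5.FE.Defs

/-! (MP) the percolation event is measurable. -/

set_option autoImplicit false

namespace H985FE

open MeasureTheory Finset

namespace MPaux

theorem adj_meas (d : ℕ) (x y : V d) : MeasurableSet {ω : Conf d | (opn ω).Adj x y} := by
  by_cases h : (zd d).Adj x y
  · have : {ω : Conf d | (opn ω).Adj x y} = (fun ω : Conf d => ω ⟨s(x, y), h⟩) ⁻¹' {true} := by
      ext ω
      exact ⟨fun ⟨_, h2⟩ => h2, fun h2 => ⟨h, h2⟩⟩
    rw [this]
    exact (measurable_pi_apply _) (measurableSet_singleton _)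
  · have : {ω : Conf d | (opn ω).Adj x y} = ∅ := by
      ext ω
      exact ⟨fun ⟨h1, _⟩ => h h1, fun h => h.elim⟩
    rw [this]
    exact MeasurableSet.empty

theorem walk_succ {W : Type} (G : SimpleGraph W) (n : ℕ) (x y : W) :
    (∃ p : G.Walk x y, p.length = n + 1) ↔ ∃ z, G.Adj x z ∧ ∃ q : G.Walk z y, q.length = n := by
  constructor
  · rintro ⟨p, hp⟩
    cases p with
    | nil => simp at hp
    | cons h q => exact ⟨_, h, q, by simpa using hp⟩
  · rintro ⟨z, h, q, hq⟩
    exact ⟨SimpleGraph.Walk.cons h q, by simp [hq]⟩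

theorem walk_meas (d n : ℕ) : ∀ x y : V d,
    MeasurableSet {ω : Conf d | ∃ p : (opn ω).Walk x y, p.length = n} := by
  induction n with
  | zero =>
    intro x y
    by_cases h : x = y
    · subst h
      have : {ω : Conf d | ∃ p : (opn ω).Walk x x, p.length = 0} = Set.univ := by
        ext ω
        exact ⟨fun _ => trivial, fun _ => ⟨SimpleGraph.Walk.nil, rfl⟩⟩
      rw [this]
      exact MeasurableSet.univ
    · have : {ω : Conf d | ∃ p : (opn ω).Walk x y, p.length = 0} = ∅ := by
        ext ω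
        refine ⟨fun ⟨p, hp⟩ => ?_, fun h => h.elim⟩
        exact h (SimpleGraph.Walk.eq_of_length_eq_zero hp)
      rw [this]
      exact MeasurableSet.empty
  | succ n ih =>
    intro x y
    have : {ω : Conf d | ∃ p : (opn ω).Walk x y, p.length = n + 1} =
        ⋃ z : V d, ({ω : Conf d | (opn ω).Adj x z} ∩
          {ω : Conf d | ∃ p : (opn ω).Walk z y, p.length = n}) := by
      ext ω
      rw [Set.mem_iUnion]
      exact walk_succ (opn ω) n x y
    rw [this]
    exact MeasurableSet.iUnion fun z => (adj_meas d x z).inter (ih z y)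

theorem reach_meas (d : ℕ) (x y : V d) : MeasurableSet {ω : Conf d | (opn ω).Reachable x y} := by
  have : {ω : Conf d | (opn ω).Reachable x y} =
      ⋃ n : ℕ, {ω : Conf d | ∃ p : (opn ω).Walk x y, p.length = n} := by
    ext ω
    rw [Set.mem_iUnion]
    constructor
    · rintro ⟨p⟩
      exact ⟨p.length, p, rfl⟩
    · rintro ⟨n, p, _⟩
      exact ⟨p⟩
  rw [this]
  exact MeasurableSet.iUnion fun n => walk_meas d n x y

theorem infinite_iff_finset {α : Type} (s : Set α) :
    s.Infinite ↔ ∀ F : Finset α, ∃ y, y ∉ F ∧ y ∈ s := by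
  constructor
  · intro h F
    obtain ⟨y, hy, hF⟩ := h.exists_notMem_finset F
    exact ⟨y, hF, hy⟩
  · intro h hs
    obtain ⟨y, hy, hys⟩ := h hs.toFinset
    exact hy (hs.mem_toFinset.2 hys)

end MPaux

open MPaux in
theorem t_mp : S_MP := by
  intro d
  have : {ω : Conf d | Perc ω} = ⋃ x : V d, ⋂ F : Finset (V d), ⋃ y : V d,
      {ω : Conf d | y ∉ F ∧ (opn ω).Reachable x y} := by
    ext ω
    simp only [Set.mem_iUnion, Set.mem_iInter]
    show (∃ x : V d, {y | (opn ω).Reachable x y}.Infinite) ↔ _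
    refine exists_congr fun x => ?_
    rw [infinite_iff_finset]
    rfl
  rw [this]
  refine MeasurableSet.iUnion fun x => MeasurableSet.iInter fun F => MeasurableSet.iUnion fun y => ?_
  by_cases h : y ∈ F
  · have : {ω : Conf d | y ∉ F ∧ (opn ω).Reachable x y} = ∅ := by
      ext ω
      exact ⟨fun h1 => h1.1 h, fun h => h.elim⟩
    rw [this]
    exact MeasurableSet.empty
  · have : {ω : Conf d | y ∉ F ∧ (opn ω).Reachable x y} = {ω : Conf d | (opn ω).Reachable x y} := by
      ext ω
      exact ⟨fun h1 => h1.2, fun h1 => ⟨h, h1⟩⟩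
    rw [this]
    exact reach_meas d x y

end H985FE
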