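import Pool.Agent.H985R5.FE.Defs

/-! NUI: signed permutations with translations preserve the measure. -/

set_option autoImplicit false

namespace H985FE

open MeasureTheory Finset

theorem NUI_one (h : S_NUP) (e : ℤ) (a : ℤ_[2]) (he : e = 1 ∨ e = -1) :
    MeasurePreserving (fun z : ℤ_[2] => (e : ℤ_[2]) * (z - a)) nu1 nu1 := by
  have : IsProbabilityMeasure nu1 := h
  have : nu1.IsAddHaarMeasure := by unfold nu1; infer_instance
  have h1 : MeasurePreserving (fun z : ℤ_[2] => z - a) nu1 nu1 := by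
    simpa [sub_eq_add_neg] using measurePreserving_add_right nu1 (-a)
  rcases he with rfl | rfl
  · simpa using h1
  · have h2 : MeasurePreserving (fun z : ℤ_[2] => -z) nu1 nu1 := Measure.measurePreserving_neg nu1
    have h3 := h2.comp h1
    have e1 : (fun z : ℤ_[2] => (((-1 : ℤ)) : ℤ_[2]) * (z - a)) =
        (fun z : ℤ_[2] => -z) ∘ fun z : ℤ_[2] => z - a := by
      funext z
      simp
    rw [e1]
    exact h3

theorem t_nui (h : S_NUP) : S_NUI := by
  intro d σ ε a hε
  have : IsProbabilityMeasure nu1 := h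
  have h1 : MeasurePreserving (fun (τ : T d) (i : Fin d) => (ε i : ℤ_[2]) * (τ i - (a i : ℤ_[2])))
      (nu d) (nu d) :=
    measurePreserving_pi (fun _ => nu1) (fun _ => nu1)
      (fun i => NUI_one h (ε i) (a i : ℤ_[2]) (hε i))
  have h2 := measurePreserving_piCongrLeft (α := fun _ : Fin d => ℤ_[2]) (fun _ => nu1) σ
  have h3 := h2.comp h1
  have e1 : (fun (τ : T d) (j : Fin d) =>
        (ε (σ.symm j) : ℤ_[2]) * (τ (σ.symm j) - (a (σ.symm j) : ℤ_[2]))) =
      (MeasurableEquiv.piCongrLeft (fun _ : Fin d => ℤ_[2]) σ) ∘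
        fun (τ : T d) (i : Fin d) => (ε i : ℤ_[2]) * (τ i - (a i : ℤ_[2])) := by
    funext τ j
    obtain ⟨i, rfl⟩ := σ.surjective j
    rw [Function.comp_apply, MeasurableEquiv.piCongrLeft_apply_apply, Equiv.symm_apply_apply]
  rw [e1]
  exact h3

end H985FE
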