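import Pool.Agent.H985R5.FE.Defs

/-!
Percolation, deterministic part (task PD).
-/

set_option autoImplicit false

namespace H985FE

open MeasureTheory Finset

namespace PD

variable {d : ℕ}

theorem off_le (τ : T d) (j : ℕ) (y : V d) (i : Fin d) (w : ℤ)
    (hw : ((w : ℤ) : ZMod (2 ^ (j ^ 2))) = res τ j y i) : off τ j y i ≤ w.natAbs := by
  unfold off
  have : NeZero (2 ^ (j ^ 2)) := ⟨by positivity⟩
  apply ZMod.natAbs_min_of_le_div_two (2 ^ (j ^ 2))
  · rw [ZMod.coe_valMinAbs, hw]
  · exact ZMod.natAbs_valMinAbs_le _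

theorem off_half (τ : T d) (j : ℕ) (y : V d) (i : Fin d) : 2 * off τ j y i ≤ 2 ^ (j ^ 2) := by
  have : NeZero (2 ^ (j ^ 2)) := ⟨by positivity⟩
  have := ZMod.natAbs_valMinAbs_le (res τ j y i)
  unfold off
  omega

theorem res_ctr (τ : T d) (k : ℕ) (x : V d) (i : Fin d) : res τ k (ctr τ k x) i = 0 := by
  have : ((ctr τ k x i : ℤ) : ZMod (2 ^ (k ^ 2))) =
      ((x i : ℤ) : ZMod (2 ^ (k ^ 2))) - res τ k x i := by
    unfold ctr
    push_cast
    rfl
  unfold res at this ⊢
  rw [this]
  ring

theorem res_mono (τ : T d) {m n : ℕ} (h : m ≤ n) (y : V d) (i : Fin d) (hz : res τ n y i = 0) :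
    res τ m y i = 0 := by
  unfold res at *
  rw [sub_eq_zero] at *
  have h2 : m ^ 2 ≤ n ^ 2 := Nat.pow_le_pow_left h 2
  rw [← PadicInt.cast_toZModPow _ _ h2, ← hz]
  rw [ZMod.cast_intCast (pow_dvd_pow 2 h2)]

theorem ctr_abs (τ : T d) (k : ℕ) (i : Fin d) : |ctr τ k 0 i| = (off τ k 0 i : ℤ) := by
  unfold ctr off
  rw [Pi.zero_apply, zero_sub, abs_neg, Int.abs_eq_natAbs]

/-- the points of the path from the centre of level `k` to the one of level `k + 1` -/
def Bt (τ : T d) (k : ℕ) (y : V d) : Prop :=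
  ∀ j, y j ∈ Set.uIcc (ctr τ k 0 j) (ctr τ (k + 1) 0 j)

theorem bt_abs (τ : T d) (k : ℕ) (y : V d) (h : Bt τ k y) (j : Fin d) :
    2 * |y j| ≤ 2 ^ ((k + 1) ^ 2) := by
  have h1 := off_half τ k 0 j
  have h2 := off_half τ (k + 1) 0 j
  have h3 : 2 ^ (k ^ 2) ≤ 2 ^ ((k + 1) ^ 2) :=
    Nat.pow_le_pow_right (by norm_num) (Nat.pow_le_pow_left (by omega) 2)
  have h4 := ctr_abs τ k j
  have h5 := ctr_abs τ (k + 1) j
  have h6 := h j
  rw [Set.mem_uIcc] at h6
  have h7 : 2 * |ctr τ k 0 j| ≤ 2 ^ ((k + 1) ^ 2) := by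
    rw [h4]
    exact_mod_cast h1.trans h3
  have h8 : 2 * |ctr τ (k + 1) 0 j| ≤ 2 ^ ((k + 1) ^ 2) := by
    rw [h5]
    exact_mod_cast h2
  have h9 : |y j| ≤ |ctr τ k 0 j| ∨ |y j| ≤ |ctr τ (k + 1) 0 j| := by
    simp only [abs_le']
    have a1 := le_abs_self (ctr τ k 0 j)
    have a2 := neg_abs_le (ctr τ k 0 j)
    have a3 := le_abs_self (ctr τ (k + 1) 0 j)
    have a4 := neg_abs_le (ctr τ (k + 1) 0 j)
    omega
  rcases h9 with h9 | h9 <;> linarith

theorem not_slab (τ : T d) (k0 k : ℕ) (hk : k0 ≤ k) (hG : ∀ k, k0 ≤ k → Gd τ k) (y : V d)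
    (h : Bt τ k y) (j : ℕ) (hj : k + 1 ≤ j) (i : Fin d) : ¬ slab τ j i y := by
  unfold slab
  rw [not_le]
  obtain ⟨m, rfl⟩ : ∃ m, j = m + 1 := ⟨j - 1, by omega⟩
  have hG' := hG m (by omega) i
  rcases Nat.eq_or_lt_of_le (show k ≤ m by omega) with hm | hm
  · subst hm
    have h1 : off τ (k + 1) y i ≤ (y i - ctr τ (k + 1) 0 i).natAbs := by
      apply off_le
      have := res_ctr τ (k + 1) 0 i
      unfold res at this ⊢
      rw [sub_eq_zero] at this
      push_cast
      rw [this]
    have h2 := h i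
    rw [Set.mem_uIcc] at h2
    have h3 := ctr_abs τ k i
    have h4 := ctr_abs τ (k + 1) i
    have h5 := off_half τ k 0 i
    have h6 : |y i - ctr τ (k + 1) 0 i| ≤ |ctr τ k 0 i| + |ctr τ (k + 1) 0 i| := by
      rw [abs_le]
      have a1 := le_abs_self (ctr τ k 0 i)
      have a2 := neg_abs_le (ctr τ k 0 i)
      have a3 := le_abs_self (ctr τ (k + 1) 0 i)
      have a4 := neg_abs_le (ctr τ (k + 1) 0 i)
      constructor
      · omega
      · omega
    rw [h3, h4, Int.abs_eq_natAbs] at h6
    have h7 : (y i - ctr τ (k + 1) 0 i).natAbs ≤ off τ k 0 i + off τ (k + 1) 0 i := by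
      exact_mod_cast h6
    omega
  · have h1 : off τ (m + 1) y i ≤ (y i + (res τ (m + 1) 0 i).valMinAbs).natAbs := by
      apply off_le
      push_cast
      unfold res
      simp
      ring
    have h2 : (y i + (res τ (m + 1) 0 i).valMinAbs).natAbs ≤
        (y i).natAbs + off τ (m + 1) 0 i := Int.natAbs_add_le _ _
    have h3 := bt_abs τ k y h i
    have h4 : 2 * (y i).natAbs ≤ 2 ^ ((k + 1) ^ 2) := by
      rw [Int.abs_eq_natAbs] at h3
      exact_mod_cast h3
    have h5 : 2 ^ ((k + 1) ^ 2) ≤ 2 ^ (m ^ 2) :=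
      Nat.pow_le_pow_right (by norm_num) (Nat.pow_le_pow_left (by omega) 2)
    omega

/-- the edges of the path are open -/
theorem edge_open (x : T d × (E d → unitInterval)) (k0 k : ℕ) (hk : k0 ≤ k)
    (hG : ∀ k, k0 ≤ k → Gd x.1 k) (hN : NF x k) (y y' : V d) (i : Fin d)
    (h : Bt x.1 k y) (h' : Bt x.1 k y')
    (hy : ∀ j, j ≠ i → y j = ctr x.1 k 0 j ∨ y j = ctr x.1 (k + 1) 0 j)
    (hy' : ∀ j, j ≠ i → y' j = y j) (hi : y' i = y i + 1) :
    (opn (cfg x)).Adj y y' := by
  have hadj : (zd d).Adj y y' := by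
    show ∑ j, (y j - y' j) ^ 2 = 1
    rw [Finset.sum_eq_single i]
    · rw [hi]; ring
    · intro j _ hj
      rw [hy' j hj]; ring
    · intro hn
      exact absurd (Finset.mem_univ i) hn
  refine ⟨hadj, ?_⟩
  have hroad : ∀ j, j ≤ k → road x.1 j s(y, y') := by
    intro j hj i' hi' z hz
    have hne : i' ≠ i := by
      rintro rfl
      have := hi' y (Sym2.mem_mk_left _ _) y' (Sym2.mem_mk_right _ _)
      omega
    have hz' : z i' = y i' := by
      rw [Sym2.mem_iff] at hz
      rcases hz with rfl | rfl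
      · rfl
      · exact hy' i' hne
    have hr : res x.1 j z i' = res x.1 j y i' := by
      unfold res
      rw [hz']
    rw [hr]
    rcases hy i' hne with e | e
    · have : res x.1 j y i' = res x.1 j (ctr x.1 k 0) i' := by
        unfold res
        rw [e]
      rw [this]
      exact res_mono x.1 hj _ _ (res_ctr x.1 k 0 i')
    · have : res x.1 j y i' = res x.1 j (ctr x.1 (k + 1) 0) i' := by
        unfold res
        rw [e]
      rw [this]
      exact res_mono x.1 (by omega) _ _ (res_ctr x.1 (k + 1) 0 i')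
  have hbase : base x.1 s(y, y') := by
    intro j hw
    by_cases hj : j ≤ k
    · exact hroad j hj
    · exfalso
      obtain ⟨i', hi'⟩ := hw
      exact not_slab x.1 k0 k hk hG y h j (by omega) i' (hi' y (Sym2.mem_mk_left _ _))
  have hnf := hN ⟨s(y, y'), hadj⟩ (by
    intro z hz j
    have hz2 : Bt x.1 k z := by
      rw [Sym2.mem_iff] at hz
      rcases hz with rfl | rfl
      · exact h
      · exact h'
    have := bt_abs x.1 k z hz2 j
    have h0 := abs_nonneg (z j)
    linarith) (hroad k le_rfl)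
  unfold cfg
  rw [if_neg hnf]
  simpa using hbase

/-- moving one coordinate -/
theorem move (x : T d × (E d → unitInterval)) (k0 k : ℕ) (hk : k0 ≤ k)
    (hG : ∀ k, k0 ≤ k → Gd x.1 k) (hN : NF x k) (y : V d) (i : Fin d)
    (hy : ∀ j, y j = ctr x.1 k 0 j ∨ y j = ctr x.1 (k + 1) 0 j) :
    (opn (cfg x)).Reachable (Function.update y i (ctr x.1 k 0 i))
      (Function.update y i (ctr x.1 (k + 1) 0 i)) := by
  set a := min (ctr x.1 k 0 i) (ctr x.1 (k + 1) 0 i) with ha
  set b := max (ctr x.1 k 0 i) (ctr x.1 (k + 1) 0 i) with hb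
  have hB : ∀ t, a ≤ t → t ≤ b → Bt x.1 k (Function.update y i t) := by
    intro t h1 h2 j
    by_cases hj : j = i
    · subst hj
      rw [Function.update_self]
      exact ⟨h1, h2⟩
    · rw [Function.update_of_ne hj]
      rcases hy j with e | e <;> rw [e]
      · exact Set.left_mem_uIcc
      · exact Set.right_mem_uIcc
  have key : ∀ n : ℕ, a + n ≤ b → (opn (cfg x)).Reachable (Function.update y i a)
      (Function.update y i (a + n)) := by
    intro n
    induction n with
    | zero =>
      intro _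
      simp only [Nat.cast_zero, add_zero]
      exact SimpleGraph.Reachable.refl _
    | succ n ih =>
      intro hn
      push_cast at hn
      refine (ih (by omega)).trans (SimpleGraph.Adj.reachable ?_)
      push_cast
      refine edge_open x k0 k hk hG hN _ _ i (hB _ (by omega) (by omega))
        (hB _ (by omega) (by omega)) ?_ ?_ ?_
      · intro j hj
        rw [Function.update_of_ne hj]
        exact hy j
      · intro j hj
        rw [Function.update_of_ne hj, Function.update_of_ne hj]
      · rw [Function.update_self, Function.update_self]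
        ring
  have hab : a ≤ b := min_le_max
  have key2 := key (b - a).toNat (by omega)
  have e : a + ((b - a).toNat : ℤ) = b := by omega
  rw [e] at key2
  rcases le_total (ctr x.1 k 0 i) (ctr x.1 (k + 1) 0 i) with h | h
  · rw [ha, hb, min_eq_left h, max_eq_right h] at key2
    exact key2
  · rw [ha, hb, min_eq_right h, max_eq_left h] at key2
    exact key2.symm

/-- consecutive centres are connected -/
theorem next (x : T d × (E d → unitInterval)) (k0 k : ℕ) (hk : k0 ≤ k)
    (hG : ∀ k, k0 ≤ k → Gd x.1 k) (hN : NF x k) :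
    (opn (cfg x)).Reachable (ctr x.1 k 0) (ctr x.1 (k + 1) 0) := by
  classical
  have key : ∀ S : Finset (Fin d), (opn (cfg x)).Reachable (ctr x.1 k 0)
      (fun j => if j ∈ S then ctr x.1 (k + 1) 0 j else ctr x.1 k 0 j) := by
    intro S
    induction S using Finset.induction_on with
    | empty =>
      simp only [Finset.notMem_empty, if_false]
      exact SimpleGraph.Reachable.refl _
    | insert i S hi ih =>
      have h1 := move x k0 k hk hG hN
        (fun j => if j ∈ S then ctr x.1 (k + 1) 0 j else ctr x.1 k 0 j) i (by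
          intro j
          by_cases hj : j ∈ S
          · right; simp [hj]
          · left; simp [hj])
      have e1 : Function.update (fun j => if j ∈ S then ctr x.1 (k + 1) 0 j else ctr x.1 k 0 j) i
          (ctr x.1 k 0 i) = (fun j => if j ∈ S then ctr x.1 (k + 1) 0 j else ctr x.1 k 0 j) := by
        funext j
        by_cases hj : j = i
        · subst hj
          rw [Function.update_self, if_neg hi]
        · rw [Function.update_of_ne hj]
      have e2 : Function.update (fun j => if j ∈ S then ctr x.1 (k + 1) 0 j else ctr x.1 k 0 j) i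
          (ctr x.1 (k + 1) 0 i) =
          (fun j => if j ∈ insert i S then ctr x.1 (k + 1) 0 j else ctr x.1 k 0 j) := by
        funext j
        by_cases hj : j = i
        · subst hj
          rw [Function.update_self, if_pos (Finset.mem_insert_self _ _)]
        · rw [Function.update_of_ne hj]
          simp [hj]
      rw [e1, e2] at h1
      exact ih.trans h1
  have := key Finset.univ
  simpa using this

end PD

/-- percolation, deterministic part -/
theorem t_pd : S_PD := by
  intro d x k0 h1 h2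
  have hG : ∀ k, k0 ≤ k → Gd x.1 k := fun k hk => (h1 k hk).1
  have hreach : ∀ n : ℕ, (opn (cfg x)).Reachable (ctr x.1 k0 0) (ctr x.1 (k0 + n) 0) := by
    intro n
    induction n with
    | zero => exact SimpleGraph.Reachable.refl _
    | succ n ih =>
      exact ih.trans (PD.next x k0 (k0 + n) (by omega) hG (h1 _ (by omega)).2)
  refine ⟨ctr x.1 k0 0, fun hfin => ?_⟩
  have hfin2 : ((fun p : V d × Fin d => |p.1 p.2|) ''
      ({y | (opn (cfg x)).Reachable (ctr x.1 k0 0) y} ×ˢ (Set.univ : Set (Fin d)))).Finite :=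
    (hfin.prod Set.finite_univ).image _
  obtain ⟨M, hM⟩ := hfin2.bddAbove
  obtain ⟨k, hk, i, hi⟩ := h2 M
  have h3 : |ctr x.1 k 0 i| ≤ M := by
    apply hM
    refine ⟨(ctr x.1 k 0, i), ⟨?_, Set.mem_univ _⟩, rfl⟩
    have := hreach (k - k0)
    rw [show k0 + (k - k0) = k by omega] at this
    exact this
  omega

end H985FE
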