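import Mathlib
import Pool.Agent.H985R5.FE.Defs

/-!
Project FE, task POS: the noise is positive almost surely (Borel-Cantelli). Also the bounds for the
probability of a slab and of a large offset.
-/

set_option autoImplicit false

namespace H985FE

open MeasureTheory Finset Filter

/-- number of residues far from zero -/
theorem pos_card (L m : ℕ) [NeZero L] :
    (univ.filter (fun b : ZMod L => m ≤ b.valMinAbs.natAbs)).card ≤ L + 1 - 2 * m := by
  classical
  have hL : 0 < L := NeZero.pos L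
  have h1 : ((univ.filter (fun b : ZMod L => m ≤ b.valMinAbs.natAbs)).image
      (fun b => b.valMinAbs)) ⊆
      Finset.Icc (-(((L - 1) / 2 : ℕ) : ℤ)) (-(m : ℤ)) ∪
        Finset.Icc (m : ℤ) ((L / 2 : ℕ) : ℤ) := by
    intro v hv
    rw [Finset.mem_image] at hv
    obtain ⟨b, hb, rfl⟩ := hv
    have h2 : m ≤ b.valMinAbs.natAbs := (Finset.mem_filter.mp hb).2
    have h3 := b.valMinAbs_mem_Ioc
    obtain ⟨h4, h5⟩ := h3
    rw [Finset.mem_union, Finset.mem_Icc, Finset.mem_Icc]
    omega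
  have h2 : ((univ.filter (fun b : ZMod L => m ≤ b.valMinAbs.natAbs)).image
      (fun b => b.valMinAbs)).card = (univ.filter (fun b : ZMod L => m ≤ b.valMinAbs.natAbs)).card :=
    Finset.card_image_of_injective _ ZMod.injective_valMinAbs
  rw [← h2]
  refine (Finset.card_le_card h1).trans ((Finset.card_union_le _ _).trans ?_)
  rw [Int.card_Icc, Int.card_Icc]
  omega

/-- number of residues such that the shifted residue is far from zero -/
theorem pos_card' (L m : ℕ) [NeZero L] (c : ZMod L) :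
    (univ.filter (fun b : ZMod L => m ≤ (c - b).valMinAbs.natAbs)).card ≤ L + 1 - 2 * m := by
  classical
  refine le_trans ?_ (pos_card L m)
  refine Finset.card_le_card_of_injOn (fun b => c - b) ?_ ?_
  · intro b hb
    have h2 := (Finset.mem_filter.mp (Finset.mem_coe.mp hb)).2
    exact Finset.mem_coe.mpr (Finset.mem_filter.mpr ⟨Finset.mem_univ _, h2⟩)
  · intro b _ b' _ h
    exact sub_right_injective h

/-- a set of residues -/
theorem pos_nu1 (hU : S_NUU) (n : ℕ) (A : Finset (ZMod (2 ^ n))) :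
    nu1 {z | PadicInt.toZModPow n z ∈ A} ≤ ENNReal.ofReal (A.card / 2 ^ n) := by
  have h1 : {z : ℤ_[2] | PadicInt.toZModPow n z ∈ A} ⊆
      ⋃ a ∈ A, {z : ℤ_[2] | PadicInt.toZModPow n z = a} := by
    intro z hz
    simp only [Set.mem_iUnion]
    exact ⟨_, hz, rfl⟩
  refine (measure_mono h1).trans ((measure_biUnion_finset_le A _).trans ?_)
  have h2 : ∑ a ∈ A, nu1 {z : ℤ_[2] | PadicInt.toZModPow n z = a} =
      ∑ _a ∈ A, ENNReal.ofReal (1 / 2 ^ n) := Finset.sum_congr rfl (fun a _ => hU n a)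
  rw [h2, Finset.sum_const, nsmul_eq_mul]
  have h3 : ((A.card : ℝ) / 2 ^ n) = (A.card : ℝ) * (1 / 2 ^ n) := by ring
  rw [h3, ENNReal.ofReal_mul (by positivity), ENNReal.ofReal_natCast]

/-- marginals -/
theorem pos_marg (hP : S_NUP) (d : ℕ) (i : Fin d) (B : Set ℤ_[2]) :
    nu d {τ | τ i ∈ B} ≤ nu1 B := by
  have : IsProbabilityMeasure nu1 := hP
  have h1 := measurePreserving_eval (fun _ : Fin d => nu1) i
  have h2 := Measure.le_map_apply (μ := Measure.pi (fun _ : Fin d => nu1))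
    h1.measurable.aemeasurable B
  rw [h1.map_eq] at h2
  exact h2

/-- the probability of a large offset -/
theorem off_le (hP : S_NUP) (hU : S_NUU) (d k m : ℕ) (i : Fin d) (x : V d) :
    nu d {τ | m ≤ off τ k x i} ≤
      ENNReal.ofReal (((2 ^ (k ^ 2) + 1 - 2 * m : ℕ) : ℝ) / 2 ^ (k ^ 2)) := by
  classical
  set A : Finset (ZMod (2 ^ (k ^ 2))) := univ.filter (fun b : ZMod (2 ^ (k ^ 2)) =>
    m ≤ ((((x i : ℤ) : ZMod (2 ^ (k ^ 2))) - b).valMinAbs.natAbs)) with hA
  have h1 : {τ : T d | m ≤ off τ k x i} ⊆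
      {τ : T d | τ i ∈ {z : ℤ_[2] | PadicInt.toZModPow (k ^ 2) z ∈ A}} := by
    intro τ hτ
    have h2 : m ≤ ((((x i : ℤ) : ZMod (2 ^ (k ^ 2))) -
      PadicInt.toZModPow (k ^ 2) (τ i)).valMinAbs.natAbs) := hτ
    show PadicInt.toZModPow (k ^ 2) (τ i) ∈ A
    rw [hA, Finset.mem_filter]
    exact ⟨Finset.mem_univ _, h2⟩
  refine (measure_mono h1).trans ((pos_marg hP d i _).trans ((pos_nu1 hU _ A).trans ?_))
  apply ENNReal.ofReal_le_ofReal
  have h3 : A.card ≤ 2 ^ (k ^ 2) + 1 - 2 * m := pos_card' _ m _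
  have h4 : (A.card : ℝ) ≤ ((2 ^ (k ^ 2) + 1 - 2 * m : ℕ) : ℝ) := by exact_mod_cast h3
  gcongr

/-- the probability of a slab -/
theorem slab_le (hP : S_NUP) (hU : S_NUU) (d k : ℕ) (i : Fin d) (x : V d) :
    nu d {τ | slab τ k i x} ≤ ENNReal.ofReal ((2 * k + 1) / 2 ^ (k ^ 2)) := by
  have h1 : {τ : T d | slab τ k i x} ⊆ {τ : T d | (2 ^ (k ^ 2) - 2 * k + 1) / 2 ≤ off τ k x i} := by
    intro τ hτ
    have h2 : 2 ^ (k ^ 2) ≤ 2 * off τ k x i + 2 * k := hτ
    show (2 ^ (k ^ 2) - 2 * k + 1) / 2 ≤ off τ k x i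
    omega
  refine (measure_mono h1).trans ((off_le hP hU d k _ i x).trans ?_)
  apply ENNReal.ofReal_le_ofReal
  have h3 : 2 ^ (k ^ 2) + 1 - 2 * ((2 ^ (k ^ 2) - 2 * k + 1) / 2) ≤ 2 * k + 1 := by
    rcases Nat.eq_zero_or_pos k with h | h
    · subst h; simp
    · have h4 : 2 ∣ 2 ^ (k ^ 2) := dvd_pow_self 2 (by positivity)
      omega
  have h4 : ((2 ^ (k ^ 2) + 1 - 2 * ((2 ^ (k ^ 2) - 2 * k + 1) / 2) : ℕ) : ℝ) ≤ 2 * k + 1 := by
    exact_mod_cast h3
  gcongr

/-- the probability that a residue vanishes -/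
theorem res_zero_le (hP : S_NUP) (hU : S_NUU) (d k : ℕ) (i : Fin d) (x : V d) :
    nu d {τ | res τ k x i = 0} ≤ ENNReal.ofReal (1 / 2 ^ (k ^ 2)) := by
  have h1 : {τ : T d | res τ k x i = 0} ⊆
      {τ : T d | τ i ∈ {z : ℤ_[2] | PadicInt.toZModPow (k ^ 2) z =
        ((x i : ℤ) : ZMod (2 ^ (k ^ 2)))}} := by
    intro τ hτ
    have h2 : ((x i : ℤ) : ZMod (2 ^ (k ^ 2))) - PadicInt.toZModPow (k ^ 2) (τ i) = 0 := hτ
    exact (sub_eq_zero.mp h2).symm
  refine (measure_mono h1).trans ((pos_marg hP d i _).trans ?_)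
  rw [hU]

/-- adjacent vertices agree in some coordinate -/
theorem pos_agree {d : ℕ} (hd : 2 ≤ d) {x y : V d} (h : (zd d).Adj x y) : ∃ i, x i = y i := by
  by_contra hcon
  push Not at hcon
  have h1 : ∑ i, (x i - y i) ^ 2 = 1 := h
  have h2 : ∑ _i : Fin d, (1 : ℤ) ≤ ∑ i, (x i - y i) ^ 2 := by
    apply Finset.sum_le_sum
    intro i _
    have h3 : x i - y i ≠ 0 := sub_ne_zero.mpr (hcon i)
    have h4 : 0 < (x i - y i) ^ 2 := by positivity
    omega
  rw [h1, Finset.sum_const, Finset.card_univ, Fintype.card_fin, nsmul_eq_mul, mul_one] at h2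
  have h3 : (2 : ℤ) ≤ d := by exact_mod_cast hd
  omega

theorem pos_arith (k : ℕ) : (2 * (k : ℝ) + 1) / 2 ^ (k ^ 2) ≤ 3 / 2 ^ k := by
  rw [div_le_div_iff₀ (by positivity) (by positivity)]
  have h1 : (2 * k + 1) * 2 ^ k ≤ 3 * 2 ^ (k ^ 2) := by
    rcases Nat.lt_or_ge k 2 with h | h
    · interval_cases k <;> norm_num
    · have h2 : 2 ^ (k + k) ≤ 2 ^ (k ^ 2) := Nat.pow_le_pow_right (by norm_num) (by nlinarith)
      have h3 : k < 2 ^ k := Nat.lt_two_pow_self
      rw [pow_add] at h2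
      have h4 : (2 * k + 1) * 2 ^ k ≤ 3 * 2 ^ k * 2 ^ k := Nat.mul_le_mul_right _ (by omega)
      nlinarith
  exact_mod_cast h1

/-- the probability that an edge is a wall edge or a road edge of level `k` -/
theorem pos_wr (hP : S_NUP) (hU : S_NUU) {d : ℕ} (hd : 2 ≤ d) (e : E d) (k : ℕ) :
    nu d {τ | wall τ k e.1 ∨ road τ k e.1} ≤ ENNReal.ofReal ((d + 1) * (3 / 2 ^ k)) := by
  obtain ⟨e, he⟩ := e
  induction e using Sym2.ind with
  | _ x y =>
    have hadj : (zd d).Adj x y := he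
    obtain ⟨i0, hi0⟩ := pos_agree hd hadj
    have h1 : {τ : T d | wall τ k s(x, y) ∨ road τ k s(x, y)} ⊆
        (⋃ i ∈ (univ : Finset (Fin d)), {τ : T d | slab τ k i x}) ∪ {τ : T d | res τ k x i0 = 0} := by
      intro τ hτ
      rcases hτ with hτ | hτ
      · left
        obtain ⟨i, hi⟩ := hτ
        simp only [Set.mem_iUnion]
        exact ⟨i, Finset.mem_univ _, hi x (Sym2.mem_mk_left x y)⟩
      · right
        refine hτ i0 ?_ x (Sym2.mem_mk_left x y)
        intro u hu v hv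
        rw [Sym2.mem_iff] at hu hv
        rcases hu with rfl | rfl <;> rcases hv with rfl | rfl
        · rfl
        · exact hi0
        · exact hi0.symm
        · rfl
    refine (measure_mono h1).trans ((measure_union_le _ _).trans ?_)
    have h2 : nu d (⋃ i ∈ (univ : Finset (Fin d)), {τ : T d | slab τ k i x}) ≤
        ENNReal.ofReal (d * (3 / 2 ^ k)) := by
      refine (measure_biUnion_finset_le _ _).trans ?_
      have h3 : ∑ i ∈ (univ : Finset (Fin d)), nu d {τ : T d | slab τ k i x} ≤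
          ∑ _i ∈ (univ : Finset (Fin d)), ENNReal.ofReal (3 / 2 ^ k) := by
        apply Finset.sum_le_sum
        intro i _
        exact (slab_le hP hU d k i x).trans (ENNReal.ofReal_le_ofReal (pos_arith k))
      refine h3.trans ?_
      rw [Finset.sum_const, Finset.card_univ, Fintype.card_fin, nsmul_eq_mul,
        ENNReal.ofReal_mul (by positivity), ENNReal.ofReal_natCast]
    have h3 : nu d {τ : T d | res τ k x i0 = 0} ≤ ENNReal.ofReal (3 / 2 ^ k) := by
      refine (res_zero_le hP hU d k i0 x).trans (ENNReal.ofReal_le_ofReal ?_)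
      refine le_trans ?_ (pos_arith k)
      have : (0 : ℝ) ≤ k := by positivity
      gcongr
      linarith
    refine (add_le_add h2 h3).trans ?_
    rw [← ENNReal.ofReal_add (by positivity) (by positivity)]
    apply ENNReal.ofReal_le_ofReal
    linarith

theorem dk_pos (d k : ℕ) : 0 < dk d k := by
  unfold dk
  positivity

/-- positive noise from finitely many levels -/
theorem pos_noise {d : ℕ} (τ : T d) (e : Sym2 (V d))
    (h : ∀ᶠ k in atTop, ¬ (wall τ k e ∨ road τ k e)) : 0 < noise τ e := by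
  classical
  obtain ⟨K, hK⟩ := eventually_atTop.mp h
  have h1 : ∃ c : ℝ, 0 < c ∧ ∀ k < K, c ≤ dk d k := by
    clear hK
    induction K with
    | zero => exact ⟨1, one_pos, fun k hk => absurd hk (Nat.not_lt_zero k)⟩
    | succ K ih =>
      obtain ⟨c, hc, hk⟩ := ih
      refine ⟨min c (dk d K), lt_min hc (dk_pos d K), fun k hk' => ?_⟩
      rcases Nat.lt_succ_iff_lt_or_eq.mp hk' with h2 | h2
      · exact (min_le_left _ _).trans (hk k h2)
      · rw [h2]; exact min_le_right _ _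
  obtain ⟨c, hc, hk⟩ := h1
  have h2 : min c (1 / 2) ≤ noise τ e := by
    unfold noise
    apply le_ciInf
    intro k
    split_ifs with h3
    · have h4 : k < K := by
        by_contra h5
        exact hK k (not_lt.mp h5) h3
      exact (min_le_left _ _).trans (hk k h4)
    · exact min_le_right _ _
  exact (lt_min hc (by norm_num)).trans_le h2

theorem t_pos (hP : S_NUP) (hU : S_NUU) (_hM : S_MEAS) : S_POS := by
  intro d hd e
  have h1 : (∑' k : ℕ, nu d {τ | wall τ k e.1 ∨ road τ k e.1}) ≠ ⊤ := by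
    have h2 : Summable (fun k : ℕ => ((d : ℝ) + 1) * (3 / 2 ^ k)) := by
      apply Summable.mul_left
      have h3 : (fun k : ℕ => (3 : ℝ) / 2 ^ k) = fun k : ℕ => 3 * (1 / 2 : ℝ) ^ k := by
        funext k
        rw [one_div, inv_pow]
        rfl
      rw [h3]
      exact (summable_geometric_of_lt_one (by norm_num) (by norm_num)).mul_left 3
    have h4 := h2.tsum_ofReal_ne_top
    refine ne_top_of_le_ne_top h4 ?_
    exact ENNReal.tsum_le_tsum (fun k => pos_wr hP hU hd e k)
  filter_upwards [ae_eventually_notMem h1] with τ hτ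
  exact pos_noise τ e.1 hτ

end H985FE
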