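import Mathlib
import Pool.Agent.H985R5.FE.Defs
import Pool.Agent.H985R5.FE.POS

/-!
Project FE, task PP: percolation, probabilistic part (Borel-Cantelli).
-/

set_option autoImplicit false

namespace H985FE

open MeasureTheory Finset Filter

/-- number of residues close to zero -/
theorem pp_card (L m : ℕ) [NeZero L] :
    (univ.filter (fun b : ZMod L => ((0 : ZMod L) - b).valMinAbs.natAbs ≤ m)).card ≤ 2 * m + 1 := by
  classical
  have h1 : ((univ.filter (fun b : ZMod L => ((0 : ZMod L) - b).valMinAbs.natAbs ≤ m)).image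
      (fun b => ((0 : ZMod L) - b).valMinAbs)) ⊆ Finset.Icc (-(m : ℤ)) (m : ℤ) := by
    intro v hv
    rw [Finset.mem_image] at hv
    obtain ⟨b, hb, rfl⟩ := hv
    have h2 := (Finset.mem_filter.mp hb).2
    rw [Finset.mem_Icc]
    omega
  have hinj : Function.Injective (fun b : ZMod L => ((0 : ZMod L) - b).valMinAbs) :=
    ZMod.injective_valMinAbs.comp (fun a b h => sub_right_injective h)
  have h2 := Finset.card_image_of_injective
    (univ.filter (fun b : ZMod L => ((0 : ZMod L) - b).valMinAbs.natAbs ≤ m)) hinj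
  rw [← h2]
  refine (Finset.card_le_card h1).trans ?_
  rw [Int.card_Icc]
  omega

/-- the probability of a small offset of the origin -/
theorem pp_off_small (hP : S_NUP) (hU : S_NUU) (d k m : ℕ) (i : Fin d) :
    nu d {τ | off τ k 0 i ≤ m} ≤ ENNReal.ofReal ((2 * m + 1) / 2 ^ (k ^ 2)) := by
  classical
  set A : Finset (ZMod (2 ^ (k ^ 2))) := univ.filter (fun b : ZMod (2 ^ (k ^ 2)) =>
    ((0 : ZMod (2 ^ (k ^ 2))) - b).valMinAbs.natAbs ≤ m) with hA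
  have h1 : {τ : T d | off τ k 0 i ≤ m} ⊆
      {τ : T d | τ i ∈ {z : ℤ_[2] | PadicInt.toZModPow (k ^ 2) z ∈ A}} := by
    intro τ hτ
    have h2 : (((((0 : V d) i : ℤ) : ZMod (2 ^ (k ^ 2))) -
      PadicInt.toZModPow (k ^ 2) (τ i)).valMinAbs.natAbs) ≤ m := hτ
    rw [Pi.zero_apply, Int.cast_zero] at h2
    show PadicInt.toZModPow (k ^ 2) (τ i) ∈ A
    rw [hA, Finset.mem_filter]
    exact ⟨Finset.mem_univ _, h2⟩
  refine (measure_mono h1).trans ((pos_marg hP d i _).trans ((pos_nu1 hU _ A).trans ?_))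
  apply ENNReal.ofReal_le_ofReal
  have h3 : A.card ≤ 2 * m + 1 := pp_card _ m
  have h4 : (A.card : ℝ) ≤ 2 * m + 1 := by exact_mod_cast h3
  gcongr

theorem pp_arith (k : ℕ) : 2 * (k + 1) + 4 * 2 ^ (k ^ 2) + 1 ≤ 7 * 2 ^ (k ^ 2 + k) := by
  have h1 : k < 2 ^ k := Nat.lt_two_pow_self
  have h2 : 2 ^ k ≤ 2 ^ (k ^ 2 + k) := Nat.pow_le_pow_right (by norm_num) (by omega)
  have h3 : 2 ^ (k ^ 2) ≤ 2 ^ (k ^ 2 + k) := Nat.pow_le_pow_right (by norm_num) (by omega)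
  omega

/-- the probability that the level is not good -/
theorem pp_gd (hP : S_NUP) (hU : S_NUU) (d k : ℕ) :
    nu d {τ | ¬ Gd τ k} ≤ ENNReal.ofReal (d * (4 / 2 ^ k)) := by
  have h1 : {τ : T d | ¬ Gd τ k} ⊆ ⋃ i ∈ (univ : Finset (Fin d)),
      {τ : T d | (2 ^ ((k + 1) ^ 2) - (2 * (k + 1) + 4 * 2 ^ (k ^ 2)) + 1) / 2 ≤
        off τ (k + 1) 0 i} := by
    intro τ hτ
    have hτ' : ¬ ∀ i, 2 * off τ (k + 1) 0 i + 2 * (k + 1) + 4 * 2 ^ (k ^ 2) <
      2 ^ ((k + 1) ^ 2) := hτ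
    push Not at hτ'
    obtain ⟨i, hi⟩ := hτ'
    simp only [Set.mem_iUnion]
    refine ⟨i, Finset.mem_univ _, ?_⟩
    show (2 ^ ((k + 1) ^ 2) - (2 * (k + 1) + 4 * 2 ^ (k ^ 2)) + 1) / 2 ≤ off τ (k + 1) 0 i
    omega
  refine (measure_mono h1).trans ((measure_biUnion_finset_le _ _).trans ?_)
  have h3 : ∑ i ∈ (univ : Finset (Fin d)), nu d {τ : T d |
      (2 ^ ((k + 1) ^ 2) - (2 * (k + 1) + 4 * 2 ^ (k ^ 2)) + 1) / 2 ≤ off τ (k + 1) 0 i} ≤
      ∑ _i ∈ (univ : Finset (Fin d)), ENNReal.ofReal (4 / 2 ^ k) := by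
    apply Finset.sum_le_sum
    intro i _
    refine (off_le hP hU d (k + 1) _ i 0).trans (ENNReal.ofReal_le_ofReal ?_)
    have h4 : 2 ^ ((k + 1) ^ 2) + 1 -
        2 * ((2 ^ ((k + 1) ^ 2) - (2 * (k + 1) + 4 * 2 ^ (k ^ 2)) + 1) / 2) ≤
        7 * 2 ^ (k ^ 2 + k) := by
      have h5 := pp_arith k
      omega
    have h5 : ((2 ^ ((k + 1) ^ 2) + 1 -
        2 * ((2 ^ ((k + 1) ^ 2) - (2 * (k + 1) + 4 * 2 ^ (k ^ 2)) + 1) / 2) : ℕ) : ℝ) ≤
        7 * 2 ^ (k ^ 2 + k) := by exact_mod_cast h4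
    rw [div_le_div_iff₀ (by positivity) (by positivity)]
    refine (mul_le_mul_of_nonneg_right h5 (by positivity)).trans ?_
    have h6 : (2 : ℝ) ^ ((k + 1) ^ 2) = 2 ^ (k ^ 2 + k) * 2 ^ k * 2 := by
      rw [← pow_add, ← pow_succ]; congr 1; ring
    rw [h6]
    have h7 : (0 : ℝ) < 2 ^ (k ^ 2 + k) * 2 ^ k := by positivity
    linarith
  refine h3.trans ?_
  rw [Finset.sum_const, Finset.card_univ, Fintype.card_fin, nsmul_eq_mul,
    ENNReal.ofReal_mul (by positivity), ENNReal.ofReal_natCast]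

theorem pp_noise_nonneg {d : ℕ} (τ : T d) (e : Sym2 (V d)) (k : ℕ) (h : road τ k e) :
    noise τ e ≤ dk d k := by
  classical
  unfold noise
  refine (ciInf_le ?_ k).trans ?_
  · refine ⟨0, ?_⟩
    rintro _ ⟨j, rfl⟩
    simp only
    split_ifs
    · exact (dk_pos d j).le
    · norm_num
  · rw [if_pos (Or.inr h)]

/-- the probability of a flip on the roads -/
theorem pp_nf (hM : S_MEAS) (hN : S_UNI) (d k : ℕ) :
    P d {x | ¬ NF x k} ≤ ENNReal.ofReal (1 / 2 ^ k) := by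
  have h0 := hN d 0 (2 ^ ((k + 1) ^ 2)) (dk d k) (dk_pos d k).le
    (fun τ e => noise τ e ≤ dk d k) (fun e => measurableSet_le ((hM d).1 e) measurable_const)
    (fun τ e h => h)
  have h1 : {x : T d × (E d → unitInterval) | ¬ NF x k} ⊆
      {x | ∃ e : E d, (∀ y ∈ e.1, ∀ i, |y i - (0 : V d) i| ≤ ((2 ^ ((k + 1) ^ 2) : ℕ) : ℤ)) ∧
        noise x.1 e.1 ≤ dk d k ∧ (x.2 e : ℝ) < noise x.1 e.1} := by
    intro x hx
    have hx' : ¬ ∀ e : E d, (∀ y ∈ e.1, ∀ i, |y i| ≤ (2 ^ ((k + 1) ^ 2) : ℤ)) →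
      road x.1 k e.1 → ¬ ((x.2 e : ℝ) < noise x.1 e.1) := hx
    push Not at hx'
    obtain ⟨e, he, hr, hl⟩ := hx'
    refine ⟨e, ?_, pp_noise_nonneg _ _ _ hr, hl⟩
    intro y hy i
    rw [Pi.zero_apply, sub_zero]
    push_cast
    exact he y hy i
  refine (measure_mono h1).trans (h0.trans (ENNReal.ofReal_le_ofReal ?_))
  have h2 : ((2 : ℝ) * ((2 ^ ((k + 1) ^ 2) : ℕ) : ℝ) + 1) ^ d ≤ (3 * 2 ^ ((k + 1) ^ 2)) ^ d := by
    apply pow_le_pow_left₀ (by positivity)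
    push_cast
    have : (1 : ℝ) ≤ 2 ^ ((k + 1) ^ 2) := one_le_pow₀ (by norm_num)
    linarith
  unfold dk
  have h3 : (0 : ℝ) < (d + 1) * (3 * 2 ^ ((k + 1) ^ 2)) ^ d := by positivity
  calc ((d : ℝ) + 1) * (2 * ((2 ^ ((k + 1) ^ 2) : ℕ) : ℝ) + 1) ^ d *
        (1 / (2 ^ k * ((d + 1) * (3 * 2 ^ ((k + 1) ^ 2)) ^ d)))
      ≤ ((d : ℝ) + 1) * (3 * 2 ^ ((k + 1) ^ 2)) ^ d *
        (1 / (2 ^ k * ((d + 1) * (3 * 2 ^ ((k + 1) ^ 2)) ^ d))) := by
        gcongr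
    _ = 1 / 2 ^ k := by
        field_simp

/-- events of the shift -/
theorem pp_prod (hP : S_NUP) (d : ℕ) (S : Set (T d)) : P d {x | x.1 ∈ S} ≤ nu d S := by
  have : IsProbabilityMeasure nu1 := hP
  have : IsProbabilityMeasure (nu d) := by unfold nu; infer_instance
  have h1 : {x : T d × (E d → unitInterval) | x.1 ∈ S} = S ×ˢ Set.univ := by
    ext x; simp
  rw [h1]
  unfold P
  rw [Measure.prod_prod, measure_univ, mul_one]

theorem t_pp (hP : S_NUP) (hU : S_NUU) (hM : S_MEAS) (hN : S_UNI) : S_PP := by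
  intro d hd
  have i0 : Fin d := ⟨0, by omega⟩
  set B : ℕ → Set (T d × (E d → unitInterval)) := fun k =>
    {x | x.1 ∈ {τ | ¬ Gd τ k}} ∪ {x | ¬ NF x k} ∪ {x | x.1 ∈ {τ | off τ k 0 i0 ≤ k}} with hB
  have hBk : ∀ k, P d (B k) ≤ ENNReal.ofReal (((d : ℝ) * 4 + 4) * (1 / 2) ^ k) := by
    intro k
    refine (measure_union_le _ _).trans ((add_le_add (measure_union_le _ _) le_rfl).trans ?_)
    refine (add_le_add (add_le_add ((pp_prod hP d _).trans (pp_gd hP hU d k))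
      (pp_nf hM hN d k)) ((pp_prod hP d _).trans ((pp_off_small hP hU d k k i0).trans
        (ENNReal.ofReal_le_ofReal (pos_arith k))))).trans ?_
    rw [← ENNReal.ofReal_add (by positivity) (by positivity),
      ← ENNReal.ofReal_add (by positivity) (by positivity)]
    apply ENNReal.ofReal_le_ofReal
    have hk : ((1 : ℝ) / 2) ^ k = 1 / 2 ^ k := by rw [div_pow, one_pow]
    rw [hk]
    apply le_of_eq
    ring
  have h1 : (∑' k : ℕ, P d (B k)) ≠ ⊤ := by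
    have h2 : Summable (fun k : ℕ => ((d : ℝ) * 4 + 4) * (1 / 2) ^ k) :=
      (summable_geometric_of_lt_one (by norm_num) (by norm_num)).mul_left _
    exact ne_top_of_le_ne_top h2.tsum_ofReal_ne_top (ENNReal.tsum_le_tsum hBk)
  filter_upwards [ae_eventually_notMem h1] with x hx
  obtain ⟨k0, hk0⟩ := eventually_atTop.mp hx
  have h3 : ∀ k, k0 ≤ k → Gd x.1 k ∧ NF x k ∧ k < off x.1 k 0 i0 := by
    intro k hk
    have h4 := hk0 k hk
    simp only [hB, Set.mem_union, not_or] at h4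
    obtain ⟨⟨h5, h6⟩, h7⟩ := h4
    exact ⟨not_not.mp h5, not_not.mp h6, not_le.mp h7⟩
  refine ⟨k0, fun k hk => ⟨(h3 k hk).1, (h3 k hk).2.1⟩, fun M => ?_⟩
  refine ⟨max k0 M.toNat, le_max_left _ _, i0, ?_⟩
  obtain ⟨-, -, h5⟩ := h3 (max k0 M.toNat) (le_max_left _ _)
  have h6 : |ctr x.1 (max k0 M.toNat) 0 i0| = ((off x.1 (max k0 M.toNat) 0 i0 : ℕ) : ℤ) := by
    unfold ctr off
    rw [Pi.zero_apply, zero_sub, abs_neg, Int.natCast_natAbs]
  rw [h6]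
  have h7 : M.toNat ≤ max k0 M.toNat := le_max_right _ _
  omega

end H985FE
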