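import Pool.Agent.H985R5.FE.Defs

/-!
Task TD: thinning, deterministic part.
-/

set_option autoImplicit false

namespace H985FE

/-- The absolute value of the balanced representative. -/
theorem TD_vma (L : ℕ) [NeZero L] (z : ℤ) (hz : 2 * |z| ≤ (L : ℤ)) :
    ((z : ZMod L).valMinAbs).natAbs = z.natAbs := by
  rcases lt_or_ge (-(L : ℤ)) (z * 2) with h | h
  · have h1 : ((z : ZMod L).valMinAbs) = z := by
      rw [ZMod.valMinAbs_spec]
      refine ⟨rfl, h, ?_⟩
      have := le_abs_self z
      linarith
    rw [h1]
  · have h1 : ((z : ZMod L).valMinAbs) = -z := by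
      rw [ZMod.valMinAbs_spec]
      have h3 := neg_abs_le z
      have h4 : z * 2 = -(L : ℤ) := by linarith
      refine ⟨?_, ?_, ?_⟩
      · have h5 : ((z * 2 : ℤ) : ZMod L) = 0 := by
          rw [h4]; push_cast; simp
        have h6 : ((z * 2 : ℤ) : ZMod L) = (z : ZMod L) + (z : ZMod L) := by
          push_cast; ring
        rw [h6] at h5
        push_cast
        exact eq_neg_of_add_eq_zero_left h5
      · have : (0 : ℤ) < L := by exact_mod_cast Nat.pos_of_ne_zero (NeZero.ne L)
        linarith
      · linarith
    rw [h1, Int.natAbs_neg]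

theorem TD_res {d : ℕ} (τ : T d) (k : ℕ) (x0 y : V d) (i : Fin d) :
    res τ k y i = ((y i - ctr τ k x0 i : ℤ) : ZMod (2 ^ (k ^ 2))) := by
  have : NeZero (2 ^ (k ^ 2)) := ⟨by positivity⟩
  have h : ((ctr τ k x0 i : ℤ) : ZMod (2 ^ (k ^ 2))) = PadicInt.toZModPow (k ^ 2) (τ i) := by
    unfold ctr
    push_cast
    try rw [ZMod.coe_valMinAbs]
    unfold res
    ring
  unfold res
  push_cast
  rw [h]

theorem TD_off {d : ℕ} (τ : T d) (k : ℕ) (x0 y : V d) (i : Fin d)
    (h : 2 * |y i - ctr τ k x0 i| ≤ ((2 ^ (k ^ 2) : ℕ) : ℤ)) :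
    (off τ k y i : ℤ) = |y i - ctr τ k x0 i| := by
  have : NeZero (2 ^ (k ^ 2)) := ⟨by positivity⟩
  unfold off
  rw [TD_res τ k x0 y i, TD_vma _ _ h, Int.natCast_natAbs]

theorem TD_off0 {d : ℕ} (τ : T d) (k : ℕ) (x0 : V d) (i : Fin d) :
    (off τ k x0 i : ℤ) = |x0 i - ctr τ k x0 i| := by
  unfold off ctr
  rw [Int.natCast_natAbs]
  congr 1
  ring

theorem TD_zero {d : ℕ} (τ : T d) (k : ℕ) (x0 y : V d) (i : Fin d)
    (h : 2 * |y i - ctr τ k x0 i| < ((2 ^ (k ^ 2) : ℕ) : ℤ)) (h0 : res τ k y i = 0) :
    y i = ctr τ k x0 i := by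
  have : NeZero (2 ^ (k ^ 2)) := ⟨by positivity⟩
  have h1 := TD_off τ k x0 y i h.le
  have h2 : off τ k y i = 0 := by
    unfold off
    rw [h0]
    simp
  rw [h2] at h1
  have h3 : |y i - ctr τ k x0 i| = 0 := by rw [← h1]; rfl
  have h4 := abs_eq_zero.mp h3
  linarith

/-- Adjacent vertices differ in one coordinate. -/
theorem TD_adj {d : ℕ} (y y' : V d) (h : (zd d).Adj y y') :
    ∃ (i : Fin d) (s : ℤ), (s = 1 ∨ s = -1) ∧ y' i = y i + s ∧ ∀ j, j ≠ i → y' j = y j := by
  have h1 : ∑ i, (y i - y' i) ^ 2 = 1 := h
  have h2 : ∃ i, (y i - y' i) ^ 2 ≠ 0 := by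
    by_contra hc
    push Not at hc
    rw [Finset.sum_congr rfl (fun i _ => hc i)] at h1
    simp at h1
  obtain ⟨i, hi⟩ := h2
  have h3 := Finset.add_sum_erase Finset.univ (fun i => (y i - y' i) ^ 2) (Finset.mem_univ i)
  rw [h1] at h3
  have h4 : 0 ≤ ∑ j ∈ Finset.univ.erase i, (y j - y' j) ^ 2 :=
    Finset.sum_nonneg (fun j _ => sq_nonneg _)
  have h5 : 0 < (y i - y' i) ^ 2 := lt_of_le_of_ne (sq_nonneg _) (Ne.symm hi)
  have h6 : (y i - y' i) ^ 2 = 1 := by
    have h3' : (y i - y' i) ^ 2 + ∑ j ∈ Finset.univ.erase i, (y j - y' j) ^ 2 = 1 := h3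
    linarith
  have h7 : ∑ j ∈ Finset.univ.erase i, (y j - y' j) ^ 2 = 0 := by
    have h3' : (y i - y' i) ^ 2 + ∑ j ∈ Finset.univ.erase i, (y j - y' j) ^ 2 = 1 := h3
    linarith
  rw [Finset.sum_eq_zero_iff_of_nonneg (fun j _ => sq_nonneg _)] at h7
  refine ⟨i, y' i - y i, ?_, by ring, ?_⟩
  · have h8 : (y' i - y i) ^ 2 = 1 := by rw [← h6]; ring
    rcases mul_eq_zero.mp (show (y' i - y i - 1) * (y' i - y i + 1) = 0 by linear_combination h8) with h9 | h9
    · left; linarith
    · right; linarith
  · intro j hj
    have h8 := h7 j (Finset.mem_erase.mpr ⟨hj, Finset.mem_univ j⟩)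
    have h9 := pow_eq_zero_iff (two_ne_zero) |>.mp h8
    linarith

theorem TD_pow (k : ℕ) (hk : 2 ≤ k) :
    ∃ H : ℕ, 2 ^ (k ^ 2) = 2 * H ∧ k < H := by
  refine ⟨2 ^ (k ^ 2 - 1), ?_, ?_⟩
  · rw [← pow_succ']
    congr 1
    have : 0 < k ^ 2 := by positivity
    omega
  · have h1 : k < 2 ^ k := Nat.lt_two_pow_self
    refine lt_of_lt_of_le h1 (Nat.pow_le_pow_right (by norm_num) ?_)
    have : k * 2 ≤ k * k := Nat.mul_le_mul_left k hk
    have h2 : k ^ 2 = k * k := by ring
    omega

theorem t_td : S_TD := by
  intro d x B k x0 hk hns hNW hCut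
  obtain ⟨H, hH, hkH⟩ := TD_pow k hk
  have hL : ((2 ^ (k ^ 2) : ℕ) : ℤ) = 2 * (H : ℤ) := by rw [hH]; push_cast; ring
  have hLz : (2 ^ (k ^ 2) : ℤ) = 2 * (H : ℤ) := by rw [← hL]; push_cast; ring
  set c := ctr x.1 k x0 with hc
  choose m hm1 hm2 hm3 using hCut
  have hm1' : ∀ i s hs, H ≤ m i s hs + k := by
    intro i s hs
    have := hm1 i s hs
    rw [hH] at this
    omega
  have hm2' : ∀ i s hs, m i s hs + 1 ≤ H := by
    intro i s hs
    have := hm2 i s hs
    rw [hH] at this
    omega
  -- the vertex x0
  have hx0 : ∀ i, |x0 i - c i| + k < H := by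
    intro i
    have h1 := hns i
    unfold slab at h1
    rw [hH] at h1
    have h2 := TD_off0 x.1 k x0 i
    rw [← hc] at h2
    rw [← h2]
    have h3 : off x.1 k x0 i + k < H := by omega
    exact_mod_cast h3
  let K : Set (V d) := {y | (∀ i, |y i - c i| < H) ∧ ∀ i s (hs : s = 1 ∨ s = -1),
    (∀ j, j ≠ i → y j = c j) → s * (y i - c i) ≤ m i s hs}
  have habs : ∀ (s z : ℤ), (s = 1 ∨ s = -1) → s * z ≤ |z| := by
    intro s z hs
    rcases hs with h | h <;> subst h
    · rw [one_mul]; exact le_abs_self z
    · rw [neg_one_mul]; exact neg_le_abs z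
  have hx0K : x0 ∈ K := by
    refine ⟨fun i => ?_, fun i s hs _ => ?_⟩
    · have := hx0 i
      have hk0 : (0 : ℤ) ≤ k := by positivity
      linarith
    · have h1 := hx0 i
      have h2 := habs s (x0 i - c i) hs
      have h3 : (H : ℤ) ≤ m i s hs + k := by exact_mod_cast hm1' i s hs
      linarith
  have hKfin : K.Finite := by
    refine Set.Finite.subset (Set.finite_Icc (fun i => c i - H) (fun i => c i + H)) ?_
    rintro y ⟨hy, -⟩
    refine ⟨fun i => ?_, fun i => ?_⟩
    · have := (abs_lt.mp (hy i)).1
      show c i - H ≤ y i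
      linarith
    · have := (abs_lt.mp (hy i)).2
      show y i ≤ c i + H
      linarith
  -- the step
  have hstep : ∀ y y' : V d, y ∈ K → (opn (fun e => cfg x e && B e)).Adj y y' → y' ∈ K := by
    rintro y y' ⟨hy1, hy2⟩ ⟨hadj, hop⟩
    have hop1 : cfg x ⟨s(y, y'), hadj⟩ = true ∧ B ⟨s(y, y'), hadj⟩ = true := by
      simpa using hop
    obtain ⟨i0, s0, hs0, hy0, hyj⟩ := TD_adj y y' hadj
    have hs0abs : |s0| = 1 := by
      rcases hs0 with h | h <;> subst h <;> simp
    -- y' in the closed box
    have hy'le : ∀ i, |y' i - c i| ≤ H := by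
      intro i
      by_cases hi : i = i0
      · subst hi
        rw [hy0]
        have h1 : |y i + s0 - c i| ≤ |y i - c i| + |s0| := by
          have : y i + s0 - c i = (y i - c i) + s0 := by ring
          rw [this]
          exact abs_add_le _ _
        have h2 := hy1 i
        rw [hs0abs] at h1
        linarith
      · rw [hyj i hi]
        exact (hy1 i).le
    have hoffy : ∀ i, (off x.1 k y i : ℤ) = |y i - c i| := by
      intro i
      apply TD_off
      rw [hL]
      have := hy1 i
      rw [← hc]
      linarith
    have hoffy' : ∀ i, (off x.1 k y' i : ℤ) = |y' i - c i| := by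
      intro i
      apply TD_off
      rw [hL]
      have := hy'le i
      rw [← hc]
      linarith
    -- a wall edge is a road edge
    have hwr : wall x.1 k s(y, y') → road x.1 k s(y, y') := by
      intro hw
      have h1 : ¬ ((x.2 ⟨s(y, y'), hadj⟩ : ℝ) < noise x.1 s(y, y')) := by
        apply hNW ⟨s(y, y'), hadj⟩ _ hw
        intro z hz i
        have hx := hx0 i
        have hk0 : (0 : ℤ) ≤ k := by positivity
        have hz1 : |z i - c i| ≤ H := by
          rcases Sym2.mem_iff.mp hz with h | h <;> subst h
          · exact (hy1 i).le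
          · exact hy'le i
        have h2 : |z i - x0 i| ≤ |z i - c i| + |x0 i - c i| := by
          have : z i - x0 i = (z i - c i) - (x0 i - c i) := by ring
          rw [this]
          exact abs_sub _ _
        rw [hLz]
        linarith
      have h2 := hop1.1
      unfold cfg at h2
      simp only [h1, if_false] at h2
      have h3 : base x.1 s(y, y') := by
        simpa using h2
      exact h3 k hw
    -- consequences for coordinates
    have hroad : ∀ j, j ≠ i0 → road x.1 k s(y, y') → y j = c j := by
      intro j hj hr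
      apply TD_zero x.1 k x0 y j
      · rw [hL]
        have := hy1 j
        rw [← hc]
        linarith
      · refine hr j ?_ y (Sym2.mem_mk_left _ _)
        intro a ha b hb
        rcases Sym2.mem_iff.mp ha with h | h <;> rcases Sym2.mem_iff.mp hb with h' | h' <;>
          subst h <;> subst h'
        · rfl
        · exact (hyj j hj).symm
        · exact hyj j hj
        · rfl
    have hcut : ∀ i s hs, (∀ j, j ≠ i → y j = c j) → (∀ j, j ≠ i → y' j = c j) →
        s * (y i - c i) = m i s hs → s * (y' i - c i) = m i s hs + 1 → False := by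
      intro i s hs hj hj' h1 h2
      have hss : s * s = 1 := by rcases hs with h | h <;> subst h <;> norm_num
      have e1 : y = gpt c i s (m i s hs) := by
        funext j
        unfold gpt
        by_cases hji : j = i
        · subst hji
          rw [Function.update_self]
          linear_combination (-(y j - c j)) * hss + s * h1
        · rw [Function.update_of_ne hji]
          exact hj j hji
      have e2 : y' = gpt c i s (m i s hs + 1) := by
        funext j
        unfold gpt
        by_cases hji : j = i
        · subst hji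
          rw [Function.update_self]
          push_cast
          linear_combination (-(y' j - c j)) * hss + s * h2
        · rw [Function.update_of_ne hji]
          exact hj' j hji
      have h3 := hm3 i s hs
      have h4 := hop1.2
      have h5 : (⟨s(y, y'), hadj⟩ : E d) =
          ⟨s(gpt c i s (m i s hs), gpt c i s (m i s hs + 1)), gadj c i s hs (m i s hs)⟩ := by
        apply Subtype.ext
        show s(y, y') = s(gpt c i s (m i s hs), gpt c i s (m i s hs + 1))
        rw [← e1, ← e2]
      rw [h5, h3] at h4
      exact absurd h4 (by simp)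
    -- part 1
    have hbox : ∀ i, |y' i - c i| < H := by
      intro i
      by_cases hi : i = i0
      · subst hi
        refine lt_of_le_of_ne (hy'le i) ?_
        intro hEq
        have h1 : |y i - c i| < H := hy1 i
        -- the sign
        have h2 : ∃ s : ℤ, (s = 1 ∨ s = -1) ∧ s * (y' i - c i) = H := by
          rcases abs_choice (y' i - c i) with h | h
          · exact ⟨1, Or.inl rfl, by rw [one_mul, ← h]; exact hEq⟩
          · exact ⟨-1, Or.inr rfl, by rw [neg_one_mul, ← h]; exact hEq⟩
        obtain ⟨s, hs, hsy⟩ := h2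
        have hsle := habs s (y i - c i) hs
        have hss0 : |s * s0| = 1 := by
          rw [abs_mul, hs0abs]
          rcases hs with h | h <;> subst h <;> simp
        have h3 : s * (y i - c i) = H - s * s0 := by
          rw [← hsy, hy0]; ring
        have h4 : s * (y i - c i) = H - 1 := by
          rw [h3]
          rcases abs_eq (by norm_num : (0 : ℤ) ≤ 1) |>.mp hss0 with h | h
          · rw [h]
          · exfalso
            rw [h] at h3
            linarith
        have h5 : |y i - c i| = H - 1 := by
          have : (H : ℤ) - 1 ≤ |y i - c i| := by rw [← h4]; exact hsle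
          omega
        have hw : wall x.1 k s(y, y') := by
          refine ⟨i, ?_⟩
          intro z hz
          unfold slab
          rw [hH]
          rcases Sym2.mem_iff.mp hz with h | h <;> subst h
          · have := hoffy i
            rw [h5] at this
            omega
          · have := hoffy' i
            rw [hEq] at this
            omega
        have hr := hwr hw
        have hyc : ∀ j, j ≠ i → y j = c j := fun j hj => hroad j hj hr
        have h6 := hy2 i s hs hyc
        have h7 := hm2' i s hs
        refine hcut i s hs hyc (fun j hj => by rw [hyj j hj]; exact hyc j hj) ?_ ?_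
        · omega
        · omega
      · rw [hyj i hi]
        exact hy1 i
    refine ⟨hbox, ?_⟩
    intro i s hs hj'
    by_contra hcon
    push Not at hcon
    by_cases hi : i = i0
    · subst hi
      have hyc : ∀ j, j ≠ i → y j = c j := fun j hj => by rw [← hyj j hj]; exact hj' j hj
      have h1 := hy2 i s hs hyc
      have hss0 : |s * s0| = 1 := by
        rw [abs_mul, hs0abs]
        rcases hs with h | h <;> subst h <;> simp
      have h2 : s * (y' i - c i) = s * (y i - c i) + s * s0 := by rw [hy0]; ring
      have h3 : s * s0 ≤ 1 := by rw [← hss0]; exact le_abs_self _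
      refine hcut i s hs hyc hj' ?_ ?_
      · omega
      · omega
    · have hyi : y' i = y i := hyj i hi
      have h1 := hm1' i s hs
      have h2 : s * (y' i - c i) ≤ |y' i - c i| := habs s _ hs
      have h3 := hoffy i
      have h4 := hoffy' i
      have h5 : |y i - c i| = |y' i - c i| := by rw [hyi]
      have hw : wall x.1 k s(y, y') := by
        refine ⟨i, ?_⟩
        intro z hz
        unfold slab
        rw [hH]
        rcases Sym2.mem_iff.mp hz with h | h <;> subst h
        · omega
        · omega
      have hr := hwr hw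
      have h6 := hroad i hi hr
      rw [hyi, h6] at hcon
      simp at hcon
      omega
  -- conclusion
  refine hKfin.subset ?_
  intro y hy
  have hy' : Relation.ReflTransGen (opn (fun e => cfg x e && B e)).Adj x0 y :=
    SimpleGraph.reachable_iff_reflTransGen x0 y |>.mp hy
  induction hy' with
  | refl => exact hx0K
  | @tail b c' hab hbc ih =>
    exact hstep b c' (ih (SimpleGraph.reachable_iff_reflTransGen x0 b |>.mpr hab)) hbc

end H985FE
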