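import Pool.Agent.H985R5.FE.Defs

set_option autoImplicit false

namespace H985FE

open MeasureTheory Finset

theorem tf_open (n : ℕ) (a : ZMod (2 ^ n)) :
    IsOpen {z : ℤ_[2] | PadicInt.toZModPow n z = a} := by
  rw [Metric.isOpen_iff]
  intro z hz
  refine ⟨(2 : ℝ) ^ (-(n : ℤ)), by positivity, fun y hy => ?_⟩
  have h1 : ‖y - z‖ ≤ (2 : ℝ) ^ (-(n : ℤ)) := by
    rw [Metric.mem_ball, dist_eq_norm] at hy
    exact hy.le
  have h2 : y - z ∈ RingHom.ker (PadicInt.toZModPow (p := 2) n) := by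
    rw [PadicInt.ker_toZModPow, ← PadicInt.norm_le_pow_iff_mem_span_pow]
    exact_mod_cast h1
  rw [RingHom.mem_ker, map_sub, sub_eq_zero] at h2
  show PadicInt.toZModPow n y = a
  rw [h2]
  exact hz

theorem tf_res {d : ℕ} (k : ℕ) (x : V d) (i : Fin d) (q : ZMod (2 ^ (k ^ 2)) → Prop) :
    MeasurableSet {τ : T d | q (res τ k x i)} := by
  have h1 : {τ : T d | q (res τ k x i)} = (fun τ : T d => τ i) ⁻¹'
      {z : ℤ_[2] | q (((x i : ℤ) : ZMod (2 ^ (k ^ 2))) - PadicInt.toZModPow (k ^ 2) z)} := rfl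
  rw [h1]
  refine measurable_pi_apply i ?_
  have h2 : {z : ℤ_[2] | q (((x i : ℤ) : ZMod (2 ^ (k ^ 2))) - PadicInt.toZModPow (k ^ 2) z)}
      = ⋃ a ∈ {a : ZMod (2 ^ (k ^ 2)) | q (((x i : ℤ) : ZMod (2 ^ (k ^ 2))) - a)},
        {z : ℤ_[2] | PadicInt.toZModPow (k ^ 2) z = a} := by
    ext z
    simp
  rw [h2]
  exact (isOpen_biUnion fun a _ => tf_open (k ^ 2) a).measurableSet

theorem tf_slab {d : ℕ} (k : ℕ) (x : V d) (i : Fin d) :
    MeasurableSet {τ : T d | slab τ k i x} :=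
  tf_res k x i (fun a => 2 ^ (k ^ 2) ≤ 2 * a.valMinAbs.natAbs + 2 * k)

theorem tf_wall {d : ℕ} (k : ℕ) (e : Sym2 (V d)) : MeasurableSet {τ : T d | wall τ k e} := by
  induction e with
  | _ a b =>
    have h : {τ : T d | wall τ k s(a, b)} = ⋃ i : Fin d, ({τ : T d | slab τ k i a} ∩
        {τ : T d | slab τ k i b}) := by
      ext τ
      simp [wall]
    rw [h]
    exact MeasurableSet.iUnion fun i => (tf_slab k a i).inter (tf_slab k b i)

theorem tf_ctr {d : ℕ} (k : ℕ) (x0 c : V d) : MeasurableSet {τ : T d | ctr τ k x0 = c} := by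
  have h : {τ : T d | ctr τ k x0 = c} = ⋂ i : Fin d, {τ : T d | x0 i - (res τ k x0 i).valMinAbs = c i} := by
    ext τ
    simp [ctr, funext_iff]
  rw [h]
  exact MeasurableSet.iInter fun i => tf_res k x0 i (fun a => x0 i - a.valMinAbs = c i)

theorem tf_dk_nonneg (d k : ℕ) : 0 ≤ dk d k := by
  unfold dk
  positivity

theorem tf_noise {d : ℕ} (τ : T d) (k : ℕ) (e : Sym2 (V d)) (h : wall τ k e) :
    noise τ e ≤ dk d k := by
  classical
  unfold noise
  have hb : BddBelow (Set.range (fun k : ℕ => if wall τ k e ∨ road τ k e then dk d k else 1 / 2)) := by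
    refine ⟨0, ?_⟩
    rintro _ ⟨j, rfl⟩
    simp only
    split_ifs
    · exact tf_dk_nonneg d j
    · norm_num
  refine (ciInf_le hb k).trans ?_
  rw [if_pos (Or.inl h)]

theorem tf_prob (hP : S_NUP) (d : ℕ) : IsProbabilityMeasure (P d) := by
  have : IsProbabilityMeasure nu1 := hP
  unfold P nu
  infer_instance

theorem tf_prob' (hP : S_NUP) (d : ℕ) : IsProbabilityMeasure (nu d) := by
  have : IsProbabilityMeasure nu1 := hP
  unfold nu
  infer_instance

theorem tf_num (d k : ℕ) :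
    ((d : ℝ) + 1) * (2 * ((2 ^ (k ^ 2) : ℕ) : ℝ) + 1) ^ d * dk d k ≤ 1 / 2 ^ k := by
  unfold dk
  have h0 : (2 : ℝ) ^ (k ^ 2) ≤ 2 ^ ((k + 1) ^ 2) :=
    pow_le_pow_right₀ (by norm_num) (Nat.pow_le_pow_left (Nat.le_succ k) 2)
  have h1 : (1 : ℝ) ≤ 2 ^ (k ^ 2) := one_le_pow₀ (by norm_num)
  have h2 : (2 * ((2 ^ (k ^ 2) : ℕ) : ℝ) + 1) ≤ 3 * 2 ^ ((k + 1) ^ 2) := by
    push_cast
    linarith
  have h3 : (2 * ((2 ^ (k ^ 2) : ℕ) : ℝ) + 1) ^ d ≤ (3 * 2 ^ ((k + 1) ^ 2)) ^ d :=
    pow_le_pow_left₀ (by positivity) h2 d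
  have h4 : (0 : ℝ) < (3 * 2 ^ ((k + 1) ^ 2)) ^ d := by positivity
  have h5 : (0 : ℝ) < (d : ℝ) + 1 := by positivity
  have h6 : (0 : ℝ) < 2 ^ k := by positivity
  rw [mul_one_div, div_le_div_iff₀ (by positivity) h6, one_mul]
  calc ((d : ℝ) + 1) * (2 * ((2 ^ (k ^ 2) : ℕ) : ℝ) + 1) ^ d * 2 ^ k
      ≤ ((d : ℝ) + 1) * (3 * 2 ^ ((k + 1) ^ 2)) ^ d * 2 ^ k := by gcongr
    _ = 2 ^ k * (((d : ℝ) + 1) * (3 * 2 ^ ((k + 1) ^ 2)) ^ d) := by ring

theorem tf_cut (hP : S_NUP) (d : ℕ) (p : unitInterval) (x0 : V d) (η : ℝ) (k : ℕ)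
    (h3 : ∀ c : V d, (Measure.infinitePi (fun _ : E d => bern p)) {B | ¬ Cut B k c} ≤
      ENNReal.ofReal η) :
    ((P d).prod (Measure.infinitePi (fun _ : E d => bern p)))
      {z | ¬ Cut z.2 k (ctr z.1.1 k x0)} ≤ ENNReal.ofReal η := by
  have := tf_prob hP d
  set Q := Measure.infinitePi (fun _ : E d => bern p) with hQ
  have hm : ∀ c : V d, MeasurableSet {x : T d × (E d → unitInterval) | ctr x.1 k x0 = c} :=
    fun c => measurable_fst (tf_ctr k x0 c)
  have hsub : {z : (T d × (E d → unitInterval)) × (E d → Bool) | ¬ Cut z.2 k (ctr z.1.1 k x0)} ⊆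
      ⋃ c : V d, ({x : T d × (E d → unitInterval) | ctr x.1 k x0 = c} ×ˢ
        {B : E d → Bool | ¬ Cut B k c}) := by
    intro z hz
    rw [Set.mem_iUnion]
    exact ⟨ctr z.1.1 k x0, rfl, hz⟩
  calc ((P d).prod Q) {z | ¬ Cut z.2 k (ctr z.1.1 k x0)}
      ≤ ((P d).prod Q) (⋃ c : V d, ({x : T d × (E d → unitInterval) | ctr x.1 k x0 = c} ×ˢ
        {B : E d → Bool | ¬ Cut B k c})) := measure_mono hsub
    _ ≤ ∑' c : V d, ((P d).prod Q) ({x : T d × (E d → unitInterval) | ctr x.1 k x0 = c} ×ˢ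
        {B : E d → Bool | ¬ Cut B k c}) := measure_iUnion_le _
    _ ≤ ∑' c : V d, P d {x : T d × (E d → unitInterval) | ctr x.1 k x0 = c} *
        ENNReal.ofReal η := by
        refine ENNReal.tsum_le_tsum fun c => ?_
        rw [Measure.prod_prod]
        gcongr
        exact h3 c
    _ = P d (⋃ c : V d, {x : T d × (E d → unitInterval) | ctr x.1 k x0 = c}) *
        ENNReal.ofReal η := by
        rw [ENNReal.tsum_mul_right, measure_iUnion _ hm]
        intro a b hab
        rw [Function.onFun, Set.disjoint_left]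
        intro x hx hx'
        exact hab (hx.symm.trans hx')
    _ ≤ 1 * ENNReal.ofReal η := by
        gcongr
        exact prob_le_one
    _ = ENNReal.ofReal η := one_mul _

theorem tf_main (hP : S_NUP) (hN : S_UNI) (h1 : S_TD) (h2 : S_TP1) (h3 : S_TP2)
    (d : ℕ) (p : unitInterval) (hp : p < 1) (x0 : V d) (η : ℝ) (hη : 0 < η) :
    ((P d).prod (Measure.infinitePi (fun _ : E d => bern p)))
      {z | ¬ {y | (opn (fun e => cfg z.1 e && z.2 e)).Reachable x0 y}.Finite} ≤
      ENNReal.ofReal (3 * η) := by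
  have := tf_prob hP d
  have := tf_prob' hP d
  set Q := Measure.infinitePi (fun _ : E d => bern p) with hQ
  obtain ⟨K1, hK1⟩ := h2 d x0 η hη
  obtain ⟨K3, hK3⟩ := h3 d p hp η hη
  obtain ⟨K2, hK2⟩ := exists_pow_lt_of_lt_one hη (show (1 / 2 : ℝ) < 1 by norm_num)
  set k := max 2 (max K1 (max K2 K3)) with hk
  have hk2 : 2 ≤ k := le_max_left _ _
  have hkK1 : K1 ≤ k := (le_max_left _ _).trans (le_max_right _ _)
  have hkK2 : K2 ≤ k := (le_max_left _ _).trans ((le_max_right _ _).trans (le_max_right _ _))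
  have hkK3 : K3 ≤ k := (le_max_right _ _).trans ((le_max_right _ _).trans (le_max_right _ _))
  have hpk : (1 : ℝ) / 2 ^ k ≤ η := by
    have : (1 / 2 : ℝ) ^ k ≤ (1 / 2) ^ K2 := pow_le_pow_of_le_one (by norm_num) (by norm_num) hkK2
    rw [← one_div_pow]
    linarith
  have hA : ((P d).prod Q) {z | ∃ i, slab z.1.1 k i x0} ≤ ENNReal.ofReal η := by
    have e : {z : (T d × (E d → unitInterval)) × (E d → Bool) | ∃ i, slab z.1.1 k i x0} =
        ({τ : T d | ∃ i, slab τ k i x0} ×ˢ Set.univ) ×ˢ Set.univ := by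
      ext z
      simp
    rw [e, Measure.prod_prod]
    unfold P
    rw [Measure.prod_prod, measure_univ, measure_univ, mul_one, mul_one]
    exact hK1 k hkK1
  have hB : ((P d).prod Q) {z | ¬ NW z.1 k x0} ≤ ENNReal.ofReal η := by
    have e : {z : (T d × (E d → unitInterval)) × (E d → Bool) | ¬ NW z.1 k x0} =
        {x : T d × (E d → unitInterval) | ¬ NW x k x0} ×ˢ Set.univ := by
      ext z
      simp
    rw [e, Measure.prod_prod, measure_univ, mul_one]
    have h := hN d x0 (2 ^ (k ^ 2)) (dk d k) (tf_dk_nonneg d k) (fun τ e => wall τ k e)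
      (fun e => tf_wall k e) (fun τ e h => tf_noise τ k e h)
    refine (measure_mono ?_).trans (h.trans (ENNReal.ofReal_le_ofReal ?_))
    · intro x hx
      have hx' : ¬ NW x k x0 := hx
      unfold NW at hx'
      push Not at hx'
      obtain ⟨e, he1, he2, he3⟩ := hx'
      refine ⟨e, ?_, he2, he3⟩
      intro y hy i
      have := he1 y hy i
      push_cast
      exact this
    · exact (tf_num d k).trans hpk
  have hC : ((P d).prod Q) {z | ¬ Cut z.2 k (ctr z.1.1 k x0)} ≤ ENNReal.ofReal η :=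
    tf_cut hP d p x0 η k (hK3 k hkK3)
  have hsub : {z : (T d × (E d → unitInterval)) × (E d → Bool) |
      ¬ {y | (opn (fun e => cfg z.1 e && z.2 e)).Reachable x0 y}.Finite} ⊆
      ({z | ∃ i, slab z.1.1 k i x0} ∪ {z | ¬ NW z.1 k x0}) ∪
        {z | ¬ Cut z.2 k (ctr z.1.1 k x0)} := by
    intro z hz
    by_contra hcon
    simp only [Set.mem_union, Set.mem_ofPred_eq, not_or, not_not] at hcon
    obtain ⟨⟨ha, hb⟩, hc⟩ := hcon
    exact hz (h1 d z.1 z.2 k x0 hk2 (fun i hi => ha ⟨i, hi⟩) hb hc)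
  calc _ ≤ _ := measure_mono hsub
    _ ≤ (ENNReal.ofReal η + ENNReal.ofReal η) + ENNReal.ofReal η :=
        (measure_union_le _ _).trans (add_le_add ((measure_union_le _ _).trans
          (add_le_add hA hB)) hC)
    _ = ENNReal.ofReal (3 * η) := by
        rw [← ENNReal.ofReal_add hη.le hη.le, ← ENNReal.ofReal_add (by positivity) hη.le]
        congr 1
        ring

theorem tf_zero (hP : S_NUP) (hN : S_UNI) (h1 : S_TD) (h2 : S_TP1) (h3 : S_TP2)
    (d : ℕ) (p : unitInterval) (hp : p < 1) (x0 : V d) :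
    ((P d).prod (Measure.infinitePi (fun _ : E d => bern p)))
      {z | ¬ {y | (opn (fun e => cfg z.1 e && z.2 e)).Reachable x0 y}.Finite} = 0 := by
  refine le_antisymm (le_of_forall_pos_le_add ?_) zero_le
  intro ε hε
  rw [zero_add]
  by_cases htop : ε = ⊤
  · rw [htop]; exact le_top
  · have hε' : 0 < ε.toReal := ENNReal.toReal_pos hε.ne' htop
    have h := tf_main hP hN h1 h2 h3 d p hp x0 (ε.toReal / 3) (by positivity)
    refine h.trans ?_
    rw [show 3 * (ε.toReal / 3) = ε.toReal by ring, ENNReal.ofReal_toReal htop]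

theorem tf_and (d : ℕ) :
    Measurable (fun (x : Conf d × Conf d) (e : E d) => x.1 e && x.2 e) := by
  refine measurable_pi_lambda _ fun e => ?_
  have h1 : Measurable (fun x : Conf d × Conf d => (x.1 e, x.2 e)) :=
    ((measurable_pi_apply e).comp measurable_fst).prodMk
      ((measurable_pi_apply e).comp measurable_snd)
  have h2 : Measurable (fun b : Bool × Bool => b.1 && b.2) := measurable_of_countable _
  exact h2.comp h1

theorem t_tf (hP : S_NUP) (hM : S_MEAS) (hN : S_UNI) (h1 : S_TD) (h2 : S_TP1) (h3 : S_TP2)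
    (h4 : S_MP) : S_TF := by
  intro d _ p hp
  have := tf_prob hP d
  have hc : Measurable (cfg (d := d)) := (hM d).2.2
  have hthin : thin p (mu d) =
      ((P d).prod (Measure.infinitePi (fun _ : E d => bern p))).map
        (fun z e => cfg z.1 e && z.2 e) := by
    unfold thin mu
    have h5 : ((P d).map cfg).prod (Measure.infinitePi (fun _ : E d => bern p)) =
        ((P d).prod (Measure.infinitePi (fun _ : E d => bern p))).map (Prod.map cfg id) := by
      rw [← Measure.map_prod_map _ _ hc measurable_id, Measure.map_id]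
    rw [h5, Measure.map_map (tf_and d) (hc.prodMap measurable_id)]
    rfl
  have hmeas : Measurable (fun (z : (T d × (E d → unitInterval)) × (E d → Bool)) (e : E d) =>
      cfg z.1 e && z.2 e) :=
    (tf_and d).comp (hc.prodMap measurable_id)
  have hms : MeasurableSet {ω : Conf d | ¬ Perc ω} := (h4 d).compl
  rw [hthin, ae_map_iff hmeas.aemeasurable hms]
  have h6 : ∀ᵐ z ∂((P d).prod (Measure.infinitePi (fun _ : E d => bern p))), ∀ x0 : V d,
      {y | (opn (fun e => cfg z.1 e && z.2 e)).Reachable x0 y}.Finite := by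
    rw [ae_all_iff]
    intro x0
    exact tf_zero hP hN h1 h2 h3 d p hp x0
  filter_upwards [h6] with z hz
  rintro ⟨x, hx⟩
  exact hx (hz x)

end H985FE
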