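import Pool.Agent.H985R5.FE.Defs

/-!
# TP1: the probability that a vertex lies in a slab
-/

set_option autoImplicit false

namespace H985FE

open MeasureTheory Finset Filter

theorem tp1_card (L k : ℕ) [NeZero L] :
    ((univ : Finset (ZMod L)).filter (fun a => L ≤ 2 * a.valMinAbs.natAbs + 2 * k)).card ≤
      2 * k + 2 := by
  classical
  have h1 : ((univ : Finset (ZMod L)).filter
      (fun a => L ≤ 2 * a.valMinAbs.natAbs + 2 * k)).card ≤
      (range (k + 1) ×ˢ (univ : Finset Bool)).card := by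
    refine Finset.card_le_card_of_injOn
      (fun a => (L / 2 - a.valMinAbs.natAbs, decide (a.valMinAbs < 0))) ?_ ?_
    · intro a ha
      rw [Finset.mem_coe, mem_filter] at ha
      rw [Finset.mem_coe, mem_product, mem_range]
      refine ⟨?_, mem_univ _⟩
      simp only
      omega
    · intro a _ b _ hab
      have ha := ZMod.natAbs_valMinAbs_le a
      have hb := ZMod.natAbs_valMinAbs_le b
      rw [Prod.mk.injEq] at hab
      obtain ⟨h2, h3⟩ := hab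
      rw [decide_eq_decide] at h3
      apply ZMod.injective_valMinAbs
      omega
  refine h1.trans ?_
  rw [card_product, card_range, card_univ, Fintype.card_bool]
  omega

theorem tp1_lim (d : ℕ) (η : ℝ) (hη : 0 < η) : ∃ K : ℕ, ∀ k, K ≤ k →
    (d : ℝ) * (((2 * k + 2 : ℕ) : ℝ) * (1 / 2 ^ (k ^ 2))) ≤ η := by
  have h1 : Tendsto (fun k : ℕ => (k : ℝ) ^ 1 / (2 : ℝ) ^ k) atTop (nhds 0) :=
    tendsto_pow_const_div_const_pow_of_one_lt 1 (by norm_num)
  have h2 : Tendsto (fun k : ℕ => 1 / (2 : ℝ) ^ k) atTop (nhds 0) := by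
    have := tendsto_pow_const_div_const_pow_of_one_lt 0 (r := (2 : ℝ)) (by norm_num)
    simpa using this
  have h3 : Tendsto (fun k : ℕ => (d : ℝ) * (2 * ((k : ℝ) ^ 1 / (2 : ℝ) ^ k) +
      2 * (1 / (2 : ℝ) ^ k))) atTop (nhds 0) := by
    have := ((h1.const_mul 2).add (h2.const_mul 2)).const_mul (d : ℝ)
    simpa using this
  obtain ⟨K, hK⟩ := Filter.eventually_atTop.1 (h3.eventually (ge_mem_nhds hη))
  refine ⟨K, fun k hk => le_trans ?_ (hK k hk)⟩
  have h4 : (2 : ℝ) ^ k ≤ 2 ^ (k ^ 2) :=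
    pow_le_pow_right₀ (by norm_num) (by nlinarith [Nat.le_self_pow (two_ne_zero) k])
  have h5 : 1 / (2 : ℝ) ^ (k ^ 2) ≤ 1 / 2 ^ k := one_div_le_one_div_of_le (by positivity) h4
  have h6 : 2 * ((k : ℝ) ^ 1 / (2 : ℝ) ^ k) + 2 * (1 / (2 : ℝ) ^ k) =
      ((2 * k + 2 : ℕ) : ℝ) * (1 / 2 ^ k) := by
    push_cast
    ring
  rw [h6]
  gcongr

theorem t_tp1 (hP : S_NUP) (hU : S_NUU) : S_TP1 := by
  intro d x0 η hη
  have : IsProbabilityMeasure nu1 := hP
  obtain ⟨K, hK⟩ := tp1_lim d η hη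
  refine ⟨K, fun k hk => ?_⟩
  have hL : NeZero (2 ^ (k ^ 2)) := ⟨by positivity⟩
  set bad : Finset (ZMod (2 ^ (k ^ 2))) :=
    univ.filter (fun a => 2 ^ (k ^ 2) ≤ 2 * a.valMinAbs.natAbs + 2 * k) with hbad
  have h1 : {τ : T d | ∃ i, slab τ k i x0} ⊆ ⋃ i : Fin d, ⋃ a ∈ bad,
      (Function.eval i) ⁻¹' {z : ℤ_[2] | PadicInt.toZModPow (k ^ 2) z =
        ((x0 i : ℤ) : ZMod (2 ^ (k ^ 2))) - a} := by
    rintro τ ⟨i, hi⟩
    rw [Set.mem_iUnion]
    refine ⟨i, ?_⟩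
    rw [Set.mem_iUnion₂]
    refine ⟨res τ k x0 i, ?_, ?_⟩
    · rw [hbad, mem_filter]
      exact ⟨mem_univ _, hi⟩
    · rw [Set.mem_preimage, Set.mem_ofPred_eq]
      unfold res
      rw [sub_sub_cancel]
  have h2 : ∀ (i : Fin d) (a : ZMod (2 ^ (k ^ 2))), (nu d) ((Function.eval i) ⁻¹'
      {z : ℤ_[2] | PadicInt.toZModPow (k ^ 2) z = ((x0 i : ℤ) : ZMod (2 ^ (k ^ 2))) - a}) ≤
      ENNReal.ofReal (1 / 2 ^ (k ^ 2)) := by
    intro i a
    have h3 := Measure.le_map_apply (μ := nu d) (f := Function.eval i)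
      (measurable_pi_apply i).aemeasurable
      {z : ℤ_[2] | PadicInt.toZModPow (k ^ 2) z = ((x0 i : ℤ) : ZMod (2 ^ (k ^ 2))) - a}
    refine h3.trans ?_
    have h4 : (nu d).map (Function.eval i) = nu1 :=
      (measurePreserving_eval (fun _ : Fin d => nu1) i).map_eq
    rw [h4, hU]
  calc (nu d) {τ | ∃ i, slab τ k i x0}
      ≤ (nu d) (⋃ i : Fin d, ⋃ a ∈ bad, (Function.eval i) ⁻¹' {z : ℤ_[2] |
        PadicInt.toZModPow (k ^ 2) z = ((x0 i : ℤ) : ZMod (2 ^ (k ^ 2))) - a}) :=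
        measure_mono h1
    _ ≤ ∑ i : Fin d, (nu d) (⋃ a ∈ bad, (Function.eval i) ⁻¹' {z : ℤ_[2] |
        PadicInt.toZModPow (k ^ 2) z = ((x0 i : ℤ) : ZMod (2 ^ (k ^ 2))) - a}) :=
        measure_iUnion_fintype_le _ _
    _ ≤ ∑ i : Fin d, ∑ a ∈ bad, ENNReal.ofReal (1 / 2 ^ (k ^ 2)) := by
        refine Finset.sum_le_sum fun i _ => ?_
        refine (measure_biUnion_finset_le _ _).trans ?_
        exact Finset.sum_le_sum fun a _ => h2 i a
    _ = ENNReal.ofReal ((d : ℝ) * ((bad.card : ℝ) * (1 / 2 ^ (k ^ 2)))) := by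
        rw [Finset.sum_const, Finset.sum_const, card_univ, Fintype.card_fin,
          ENNReal.ofReal_mul (Nat.cast_nonneg _), ENNReal.ofReal_mul (Nat.cast_nonneg _),
          ENNReal.ofReal_natCast, ENNReal.ofReal_natCast, nsmul_eq_mul, nsmul_eq_mul]
    _ ≤ ENNReal.ofReal η := by
        refine ENNReal.ofReal_le_ofReal (le_trans ?_ (hK k hk))
        have h5 : (bad.card : ℝ) ≤ ((2 * k + 2 : ℕ) : ℝ) := by
          exact_mod_cast tp1_card (2 ^ (k ^ 2)) k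
        gcongr

end H985FE
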