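import Pool.Agent.H985R5.FE.Defs

set_option autoImplicit false

namespace H985FE

open MeasureTheory Finset

theorem TP2_bern (p : unitInterval) : bern p {true} = ENNReal.ofReal p := by
  unfold bern
  simp

theorem TP2_inj {d : ℕ} (c : V d) (i : Fin d) (s : ℤ) (hs : s = 1 ∨ s = -1) (m m' : ℕ)
    (h : (s(gpt c i s m, gpt c i s (m + 1)) : Sym2 (V d)) = s(gpt c i s m', gpt c i s (m' + 1))) :
    m = m' := by
  have e : ∀ n n' : ℕ, gpt c i s n = gpt c i s n' → n = n' := by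
    intro n n' h1
    have h2 := congrFun h1 i
    unfold gpt at h2
    rw [Function.update_self, Function.update_self] at h2
    rcases hs with h | h <;> subst h <;> omega
  rcases Sym2.eq_iff.1 h with ⟨h1, _⟩ | ⟨h1, h2⟩
  · exact e _ _ h1
  · have h3 := e _ _ h1
    have h4 := e _ _ h2
    omega

theorem TP2_one (d : ℕ) (p : unitInterval) (k : ℕ) (hk : 1 ≤ k) (c : V d) (i : Fin d) (s : ℤ)
    (hs : s = 1 ∨ s = -1) :
    (Measure.infinitePi (fun _ : E d => bern p)) {B | ∀ m : ℕ, 2 ^ (k ^ 2) ≤ 2 * m + 2 * k →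
      2 * m + 2 ≤ 2 ^ (k ^ 2) →
        B ⟨s(gpt c i s m, gpt c i s (m + 1)), gadj c i s hs m⟩ = true} ≤
      (ENNReal.ofReal p) ^ k := by
  classical
  obtain ⟨L, hL⟩ : ∃ L : ℕ, 2 ^ (k ^ 2) = 2 * L ∧ k ≤ L := by
    refine ⟨2 ^ (k ^ 2 - 1), ?_, ?_⟩
    · rw [← pow_succ']
      congr 1
      have : 1 ≤ k ^ 2 := Nat.one_le_pow _ _ hk
      omega
    · have h1 : k - 1 ≤ k ^ 2 - 1 := by
        have : k ≤ k ^ 2 := by nlinarith
        omega
      have h2 : k - 1 < 2 ^ (k - 1) := Nat.lt_two_pow_self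
      have h3 : 2 ^ (k - 1) ≤ 2 ^ (k ^ 2 - 1) := Nat.pow_le_pow_right (by norm_num) h1
      omega
  obtain ⟨hL, hkL⟩ := hL
  let f : ℕ → E d := fun j =>
    ⟨s(gpt c i s (L - k + j), gpt c i s (L - k + j + 1)), gadj c i s hs (L - k + j)⟩
  have hf : Function.Injective f := by
    intro a b hab
    have h1 := congrArg Subtype.val hab
    have h2 := TP2_inj c i s hs _ _ h1
    omega
  let S : Finset (E d) := (Finset.range k).image f
  have hS : S.card = k := by
    rw [Finset.card_image_of_injective _ hf, Finset.card_range]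
  calc (Measure.infinitePi (fun _ : E d => bern p)) {B | ∀ m : ℕ, 2 ^ (k ^ 2) ≤ 2 * m + 2 * k →
      2 * m + 2 ≤ 2 ^ (k ^ 2) →
        B ⟨s(gpt c i s m, gpt c i s (m + 1)), gadj c i s hs m⟩ = true}
      ≤ (Measure.infinitePi (fun _ : E d => bern p)) (Set.pi (S : Set (E d)) fun _ => {true}) := by
        refine measure_mono ?_
        intro B hB e he
        obtain ⟨j, hj, rfl⟩ := Finset.mem_image.1 (Finset.mem_coe.1 he)
        rw [Finset.mem_range] at hj
        refine hB (L - k + j) ?_ ?_ <;> rw [hL] <;> omega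
    _ = ∏ _e ∈ S, bern p {true} :=
        Measure.infinitePi_pi _ (fun _ _ => MeasurableSet.singleton _)
    _ = (ENNReal.ofReal p) ^ k := by
        rw [Finset.prod_const, TP2_bern, hS]

theorem t_tp2 : S_TP2 := by
  intro d p hp η hη
  have hp1 : (p : ℝ) < 1 := hp
  have hp0 : (0 : ℝ) ≤ p := p.2.1
  have ht : Filter.Tendsto (fun k : ℕ => (2 * d : ℝ) * (p : ℝ) ^ k) Filter.atTop (nhds 0) := by
    have := (tendsto_pow_atTop_nhds_zero_of_lt_one hp0 hp1).const_mul (2 * d : ℝ)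
    simpa using this
  obtain ⟨K, hK⟩ := Filter.eventually_atTop.1 (ht.eventually (gt_mem_nhds hη))
  refine ⟨max K 1, fun k hk c => ?_⟩
  have hk1 : 1 ≤ k := le_trans (le_max_right _ _) hk
  have hkK : K ≤ k := le_trans (le_max_left _ _) hk
  have hsub : {B : E d → Bool | ¬ Cut B k c} ⊆
      ⋃ i : Fin d, ({B | ∀ m : ℕ, 2 ^ (k ^ 2) ≤ 2 * m + 2 * k → 2 * m + 2 ≤ 2 ^ (k ^ 2) →
        B ⟨s(gpt c i 1 m, gpt c i 1 (m + 1)), gadj c i 1 (Or.inl rfl) m⟩ = true} ∪
        {B | ∀ m : ℕ, 2 ^ (k ^ 2) ≤ 2 * m + 2 * k → 2 * m + 2 ≤ 2 ^ (k ^ 2) →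
        B ⟨s(gpt c i (-1) m, gpt c i (-1) (m + 1)), gadj c i (-1) (Or.inr rfl) m⟩ = true}) := by
    intro B hB
    have hB' : ¬ Cut B k c := hB
    unfold Cut at hB'
    push Not at hB'
    obtain ⟨i, s, hs, h⟩ := hB'
    rw [Set.mem_iUnion]
    refine ⟨i, ?_⟩
    rcases hs with hs | hs
    · left
      subst hs
      intro m h1 h2
      simpa using h m h1 h2
    · right
      subst hs
      intro m h1 h2
      simpa using h m h1 h2
  calc (Measure.infinitePi (fun _ : E d => bern p)) {B | ¬ Cut B k c}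
      ≤ _ := measure_mono hsub
    _ ≤ ∑ i : Fin d, _ := measure_iUnion_fintype_le _ _
    _ ≤ ∑ _i : Fin d, ((ENNReal.ofReal p) ^ k + (ENNReal.ofReal p) ^ k) := by
        refine Finset.sum_le_sum fun i _ => ?_
        refine (measure_union_le _ _).trans ?_
        exact add_le_add (TP2_one d p k hk1 c i 1 (Or.inl rfl))
          (TP2_one d p k hk1 c i (-1) (Or.inr rfl))
    _ = ENNReal.ofReal ((2 * d : ℝ) * (p : ℝ) ^ k) := by
        rw [Finset.sum_const, Finset.card_univ, Fintype.card_fin, ← two_mul, nsmul_eq_mul,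
          ENNReal.ofReal_mul (by positivity), ENNReal.ofReal_pow hp0]
        rw [ENNReal.ofReal_mul (by norm_num)]
        simp
        ring
    _ ≤ ENNReal.ofReal η := ENNReal.ofReal_le_ofReal (hK k hkK).le

end H985FE
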