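import Pool.Agent.H985R5.FE.Defs

set_option autoImplicit false

namespace H985FE

open MeasureTheory Finset

theorem uni_vol (δ : ℝ) : (volume : Measure unitInterval) {u | (u : ℝ) < δ} ≤
    ENNReal.ofReal δ := by
  rw [unitInterval.volume_apply]
  have h : Subtype.val '' {u : unitInterval | (u : ℝ) < δ} ⊆ Set.Ico (0:ℝ) δ := by
    rintro _ ⟨u, hu, rfl⟩
    exact ⟨u.2.1, hu⟩
  refine (measure_mono h).trans ?_
  rw [Real.volume_Ico, sub_zero]

theorem uni_ev (hP : S_NUP) {d : ℕ} (e : E d) (δ : ℝ) :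
    P d {x | (x.2 e : ℝ) < δ} ≤ ENNReal.ofReal δ := by
  have : IsProbabilityMeasure nu1 := hP
  have : IsProbabilityMeasure (nu d) := by unfold nu; infer_instance
  have hm : MeasurableSet {u : unitInterval | (u : ℝ) < δ} :=
    measurableSet_lt measurable_subtype_coe measurable_const
  have h1 : MeasurePreserving
      (Prod.snd : T d × (E d → unitInterval) → (E d → unitInterval)) (P d)
      (Measure.infinitePi (fun _ : E d => (volume : Measure unitInterval))) := by
    unfold P
    exact measurePreserving_snd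
  have h2 := (measurePreserving_eval_infinitePi
    (fun _ : E d => (volume : Measure unitInterval)) e).comp h1
  have h3 := h2.measure_preimage hm.nullMeasurableSet
  have h4 : {x : T d × (E d → unitInterval) | (x.2 e : ℝ) < δ} =
      (Function.eval e ∘ Prod.snd) ⁻¹' {u : unitInterval | (u : ℝ) < δ} := rfl
  rw [h4, h3]
  exact uni_vol δ

theorem uni_adj {d : ℕ} (z : V d) (i : Fin d) : (zd d).Adj z (z + Pi.single i 1) := by
  show ∑ j, (z j - (z + Pi.single i (1:ℤ) : V d) j) ^ 2 = 1
  rw [Finset.sum_eq_single i]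
  · simp
  · intro j _ hj
    simp [Pi.single_eq_of_ne hj]
  · intro h
    exact absurd (Finset.mem_univ i) h

/-- the edge from `z` in direction `i` -/
def uniE {d : ℕ} (q : V d × Fin d) : E d := ⟨s(q.1, q.1 + Pi.single q.2 1), uni_adj q.1 q.2⟩

theorem uni_dir {d : ℕ} {a b : V d} (h : (zd d).Adj a b) :
    ∃ i, b = a + Pi.single i 1 ∨ a = b + Pi.single i 1 := by
  have h1 : ∑ i, (a i - b i) ^ 2 = 1 := h
  have h2 : ∃ i, (a i - b i) ^ 2 ≠ 0 := by
    by_contra hcon
    push Not at hcon
    rw [Finset.sum_eq_zero fun i _ => hcon i] at h1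
    norm_num at h1
  obtain ⟨i, hi⟩ := h2
  have h3 : 1 ≤ (a i - b i) ^ 2 := by
    have := sq_nonneg (a i - b i)
    omega
  have h4 := Finset.add_sum_erase Finset.univ (fun j => (a j - b j) ^ 2) (Finset.mem_univ i)
  rw [h1] at h4
  have h5 : 0 ≤ ∑ j ∈ Finset.univ.erase i, (a j - b j) ^ 2 :=
    Finset.sum_nonneg fun j _ => sq_nonneg _
  have h6 : ∑ j ∈ Finset.univ.erase i, (a j - b j) ^ 2 = 0 := by omega
  have h7 : (a i - b i) ^ 2 = 1 := by omega
  have h8 : ∀ j, j ≠ i → a j = b j := by
    intro j hj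
    have := (Finset.sum_eq_zero_iff_of_nonneg fun j _ => sq_nonneg (a j - b j)).1 h6 j
      (Finset.mem_erase.2 ⟨hj, Finset.mem_univ j⟩)
    have h9 : a j - b j = 0 := by
      exact pow_eq_zero_iff (two_ne_zero) |>.1 this
    omega
  have h10 : a i - b i = 1 ∨ a i - b i = -1 := by
    have h11 : (a i - b i - 1) * (a i - b i + 1) = 0 := by linear_combination h7
    rcases mul_eq_zero.1 h11 with h | h
    · left; omega
    · right; omega
  refine ⟨i, ?_⟩
  rcases h10 with h10 | h10
  · right
    funext j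
    by_cases hj : j = i
    · subst hj; simp; omega
    · simp [Pi.single_eq_of_ne hj, h8 j hj]
  · left
    funext j
    by_cases hj : j = i
    · subst hj; simp; omega
    · simp [Pi.single_eq_of_ne hj, h8 j hj]

theorem t_uni (hP : S_NUP) (_hM : S_MEAS) : S_UNI := by
  intro d x0 R δ hδ C _ hC
  set box : Finset (V d) := Fintype.piFinset fun i => Finset.Icc (x0 i - R) (x0 i + R) with hbox
  have hsub : {x : T d × (E d → unitInterval) | ∃ e : E d,
      (∀ y ∈ e.1, ∀ i, |y i - x0 i| ≤ (R : ℤ)) ∧ C x.1 e.1 ∧ (x.2 e : ℝ) < noise x.1 e.1} ⊆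
      ⋃ q ∈ box ×ˢ (Finset.univ : Finset (Fin d)), {x | (x.2 (uniE q) : ℝ) < δ} := by
    rintro x ⟨e, he, hc, hlt⟩
    have hlt' : (x.2 e : ℝ) < δ := lt_of_lt_of_le hlt (hC _ _ hc)
    obtain ⟨e, hadj⟩ := e
    induction e using Sym2.ind with
    | _ a b =>
      have hab : (zd d).Adj a b := hadj
      have hmem : ∀ y ∈ s(a, b), y ∈ box := by
        intro y hy
        rw [hbox, Fintype.mem_piFinset]
        intro i
        have := he y hy i
        rw [abs_le] at this
        rw [Finset.mem_Icc]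
        omega
      obtain ⟨i, hi | hi⟩ := uni_dir hab
      · refine Set.mem_iUnion₂.2 ⟨(a, i), Finset.mem_product.2
          ⟨hmem a (Sym2.mem_mk_left a b), Finset.mem_univ _⟩, ?_⟩
        have : uniE (a, i) = ⟨s(a, b), hadj⟩ := Subtype.ext (by
          show s(a, a + Pi.single i 1) = s(a, b)
          rw [← hi])
        show (x.2 (uniE (a, i)) : ℝ) < δ
        rw [this]
        exact hlt'
      · refine Set.mem_iUnion₂.2 ⟨(b, i), Finset.mem_product.2
          ⟨hmem b (Sym2.mem_mk_right a b), Finset.mem_univ _⟩, ?_⟩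
        have : uniE (b, i) = ⟨s(a, b), hadj⟩ := Subtype.ext (by
          show s(b, b + Pi.single i 1) = s(a, b)
          rw [← hi, Sym2.eq_swap])
        show (x.2 (uniE (b, i)) : ℝ) < δ
        rw [this]
        exact hlt'
  refine (measure_mono hsub).trans ((measure_biUnion_finset_le _ _).trans ?_)
  refine (Finset.sum_le_sum fun q _ => uni_ev hP (uniE q) δ).trans ?_
  rw [Finset.sum_const, Finset.card_product, Finset.card_univ, Fintype.card_fin,
    Fintype.card_piFinset, nsmul_eq_mul]
  have hcard : ∏ i : Fin d, (Finset.Icc (x0 i - R) (x0 i + R)).card = (2 * R + 1) ^ d := by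
    rw [Finset.prod_congr rfl (g := fun _ => 2 * R + 1)]
    · simp
    · intro i _
      rw [Int.card_Icc]
      omega
  rw [hcard]
  have h1 : (((2 * R + 1) ^ d * d : ℕ) : ENNReal) = ENNReal.ofReal ((2 * R + 1) ^ d * d) := by
    rw [← ENNReal.ofReal_natCast]
    congr 1
    push_cast
    ring
  rw [h1, ← ENNReal.ofReal_mul (by positivity)]
  refine ENNReal.ofReal_le_ofReal ?_
  have h2 : (0:ℝ) ≤ (2 * R + 1) ^ d := by positivity
  nlinarith [mul_nonneg h2 hδ]

end H985FE
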